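import Pool.Agent.LI4.Role

/-!
LI4: in `T2 G v s t a b a' b'` the vertex `a` is the centre of a claw.

Proof.  Suppose `NC G a`.  `s ~ t` are neighbours of `v`, so one of them is `NC` (`hv : Tri1 G v`); by
`T2.swap` let it be `s`.  `Typ G s` gives a `T2` at `s`, `role_s` gives `e, e'` with
`T2 G s v t a b e e'`.  `Typ G a` gives a `T2` at `a`, `role_a` gives `z, z'` with
`T2 G a s t v z a' z'`.  So `z ~ s`, `z ~ t`, `z ~ a`, `z ≠ v`.  By `t2_all` at `s` (`At.mk' hG hm`)
`z` is one of `v, t, a, b, e, e'`: `z ≠ v`; `z ≠ t`, `z ≠ a` (adjacent); `z ≠ b` since `b` is not adjacent to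
`a`; `z ≠ e, e'` since `t` is not adjacent to `e`, `e'`.
-/

set_option autoImplicit false

namespace Pool.Agent.LI4

open Pool.Agent.LG6 Pool.Agent.LR5 Pool.Agent.LD6

variable {V : Type} {G : SimpleGraph V}

theorem aclaw [Fintype V] (hG : IsKConnected 6 G) (hm : ¬ HasCompleteMinor 6 G)
    {v s t a b a' b' : V} (hv : NC G v) (h : T2 G v s t a b a' b') (hT : Tri1 G v)
    (hn : ∀ x, G.Adj v x → Typ G x) : ¬ NC G a := by
  intro na
  have Av := At.mk' hG hm hv
  have Aa := At.mk' hG hm na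
  have key : ∀ s t, T2 G v s t a b a' b' → NC G s → False := by
    intro s t h ns
    have As := At.mk' hG hm ns
    obtain ⟨⟨_, _, _, _, _, _, hs⟩, -⟩ := hn s h.vs ns
    obtain ⟨⟨_, _, _, _, _, _, ha⟩, -⟩ := hn a h.va na
    obtain ⟨e, e', hs'⟩ := role_s Av As h hs
    obtain ⟨z, z', ha'⟩ := role_a Av Aa h ha
    rcases t2_all As hs' z ha'.sb with hz | hz | hz | hz | hz | hz
    · exact ha'.ne.2.2.2.2.1 hz.symm
    · exact ha'.tb.ne hz.symm
    · exact ha'.vb.ne hz.symm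
    · exact h.nab (hz ▸ ha'.vb)
    · exact hs'.nta (hz ▸ ha'.tb)
    · exact hs'.ntb (hz ▸ ha'.tb)
  rcases hT s t h.vs h.vt h.st with ns | nt
  · exact key s t h ns
  · exact key t s h.swap nt

end Pool.Agent.LI4
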