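import Pool.Agent.LI4.DefsT

/-!
LI4: the configuration `Cf` from the `T2` structures.  Every field of `Cf` is read off:

`xx`: `v ~ s ~ t`.  `ax`, `bx`, `nab`, `ab`: `h`.  `nb`: `t2_all` at `v`, `s`, `t`.  `xp i`, `xq i`:
fields `va'`, `vb'` of `h`, `hs`, `ht`.  `pq`: `ab'`; `ap`: `aa'`; `bq`: `bb'`; `nbp`: `nba'`; `naq`: `nab'`.
`cp`: field `vb` of `k1, k2, k3`; `cq`: `vb` of `l1, l2, l3`; `cn`, `cn'`: `sb`, `tb` of `k`; `cm`, `cm'`:
`sb`, `tb` of `l`; `an`, `an'`: `sa`, `ta` of `k`; `bm`, `bm'`: `sa`, `ta` of `l`; `pn`, `pn'`: `vs`, `vt` of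
`k`; `qm`, `qm'` : `vs`, `vt` of `l`; `nqn`, `nqn'`: `nsb`, `ntb` of `k` (not adjacent to the last entry);
`npm`, `npm'`: `nsb`, `ntb` of `l`; `nn`, `mm`: `st`.
`pT`: `p i ≠ x i` adjacent, `p i ≠ x j`: the field `ne` of `h`, `hs`, `ht`; `qT` the same.  `cT`, `pc`,
`qc`: `c i` is not `NC`, the others are.  `nT`: `n 0 ≠ v` by `ne` of `k1`; `n 0 ~ a'`, `s` and `t` are not
adjacent to `a'`; in the same way for the others; `mT` the same with `b'`.
`pp`: `e ~ s`, `a'` is not adjacent to `s`; `g ~ t`, `a'` and `e` are not adjacent to `t`.  `qq` the same.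
`pqn`: `a ~ p i`, `a` is not adjacent to `q j`.
-/

set_option autoImplicit false

namespace Pool.Agent.LI4

open Pool.Agent.LG6 Pool.Agent.LR5 Pool.Agent.LD6

variable {V : Type} {G : SimpleGraph V}

private theorem f3 {P : Fin 3 → Prop} (h0 : P 0) (h1 : P 1) (h2 : P 2) : ∀ i, P i := by
  intro i
  fin_cases i
  · exact h0
  · exact h1
  · exact h2

private theorem f33 {P : Fin 3 → Fin 3 → Prop} (h00 : P 0 0) (h01 : P 0 1) (h02 : P 0 2)
    (h10 : P 1 0) (h11 : P 1 1) (h12 : P 1 2) (h20 : P 2 0) (h21 : P 2 1) (h22 : P 2 2) :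
    ∀ i j, P i j := by
  intro i
  fin_cases i
  · exact f3 h00 h01 h02
  · exact f3 h10 h11 h12
  · exact f3 h20 h21 h22

/-- `y ≠ z` if `w` is adjacent to `y` and not to `z` -/
private theorem ne_adj {w y z : V} (h1 : G.Adj w y) (h2 : ¬ G.Adj w z) : y ≠ z := fun h =>
  h2 (h ▸ h1)

/-- `y ≠ z` if `y` is adjacent to `w` and `z` is not -/
private theorem ne_adj' {w y z : V} (h1 : G.Adj w y) (h2 : ¬ G.Adj z w) : y ≠ z := fun h =>
  h2 (h ▸ h1.symm)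

private theorem ne_nc {y z : V} (h1 : ¬ NC G y) (h2 : NC G z) : y ≠ z := fun h => h1 (h.symm ▸ h2)

theorem conf {v s t a b a' b' e e' g g' c₀ c₁ c₂ n₀ n₀' n₁ n₁' n₂ n₂' m₀ m₀' m₁ m₁' m₂ m₂' : V}
    (Av : At G v) (As : At G s) (At' : At G t)
    (h : T2 G v s t a b a' b') (hs : T2 G s v t a b e e') (ht : T2 G t v s a b g g')
    (k1 : T2 G a' n₀ n₀' a c₀ v b') (l1 : T2 G b' m₀ m₀' b c₀ v a')
    (k2 : T2 G e n₁ n₁' a c₁ s e') (l2 : T2 G e' m₁ m₁' b c₁ s e)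
    (k3 : T2 G g n₂ n₂' a c₂ t g') (l3 : T2 G g' m₂ m₂' b c₂ t g)
    (nv : NC G v) (ns : NC G s) (nt : NC G t) (na' : NC G a') (nb' : NC G b') (ne' : NC G e)
    (ne'' : NC G e') (ng : NC G g) (ng' : NC G g') (d0 : ¬ NC G c₀) (d1 : ¬ NC G c₁)
    (d2 : ¬ NC G c₂) :
    Cf G a b ![v, s, t] ![a', e, g] ![b', e', g'] ![c₀, c₁, c₂] ![n₀, n₁, n₂] ![n₀', n₁', n₂']
      ![m₀, m₁, m₂] ![m₀', m₁', m₂'] := by
  have nbv := t2_all Av h
  have nbs := t2_all As hs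
  have nbt := t2_all At' ht
  refine
    { xx := f33 (fun h' => absurd rfl h') (fun _ => h.vs) (fun _ => h.vt) (fun _ => h.vs.symm)
        (fun h' => absurd rfl h') (fun _ => h.st) (fun _ => h.vt.symm) (fun _ => h.st.symm)
        (fun h' => absurd rfl h')
      ax := f3 h.va.symm h.sa.symm h.ta.symm
      bx := f3 h.vb.symm h.sb.symm h.tb.symm
      nab := h.nab
      ab := h.ne.2.2.2.2.1
      nb := ?_
      xp := f3 h.va' hs.va' ht.va'
      xq := f3 h.vb' hs.vb' ht.vb'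
      pq := f3 h.ab' hs.ab' ht.ab'
      ap := f3 h.aa' hs.aa' ht.aa'
      bq := f3 h.bb' hs.bb' ht.bb'
      nbp := f3 h.nba' hs.nba' ht.nba'
      naq := f3 h.nab' hs.nab' ht.nab'
      cp := f3 k1.vb.symm k2.vb.symm k3.vb.symm
      cq := f3 l1.vb.symm l2.vb.symm l3.vb.symm
      cn := f3 k1.sb.symm k2.sb.symm k3.sb.symm
      cn' := f3 k1.tb.symm k2.tb.symm k3.tb.symm
      cm := f3 l1.sb.symm l2.sb.symm l3.sb.symm
      cm' := f3 l1.tb.symm l2.tb.symm l3.tb.symm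
      an := f3 k1.sa.symm k2.sa.symm k3.sa.symm
      an' := f3 k1.ta.symm k2.ta.symm k3.ta.symm
      bm := f3 l1.sa.symm l2.sa.symm l3.sa.symm
      bm' := f3 l1.ta.symm l2.ta.symm l3.ta.symm
      pn := f3 k1.vs k2.vs k3.vs
      pn' := f3 k1.vt k2.vt k3.vt
      qm := f3 l1.vs l2.vs l3.vs
      qm' := f3 l1.vt l2.vt l3.vt
      nqn := f3 (fun h' => k1.nsb h'.symm) (fun h' => k2.nsb h'.symm) (fun h' => k3.nsb h'.symm)
      nqn' := f3 (fun h' => k1.ntb h'.symm) (fun h' => k2.ntb h'.symm) (fun h' => k3.ntb h'.symm)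
      npm := f3 (fun h' => l1.nsb h'.symm) (fun h' => l2.nsb h'.symm) (fun h' => l3.nsb h'.symm)
      npm' := f3 (fun h' => l1.ntb h'.symm) (fun h' => l2.ntb h'.symm) (fun h' => l3.ntb h'.symm)
      nn := f3 k1.st.ne k2.st.ne k3.st.ne
      mm := f3 l1.st.ne l2.st.ne l3.st.ne
      pT := f33 h.va'.ne.symm h.ne.1.symm h.ne.2.2.1.symm
        hs.ne.1.symm hs.va'.ne.symm hs.ne.2.2.1.symm
        ht.ne.1.symm ht.ne.2.2.1.symm ht.va'.ne.symm
      qT := f33 h.vb'.ne.symm h.ne.2.1.symm h.ne.2.2.2.1.symm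
        hs.ne.2.1.symm hs.vb'.ne.symm hs.ne.2.2.2.1.symm
        ht.ne.2.1.symm ht.ne.2.2.2.1.symm ht.vb'.ne.symm
      cT := f33 (ne_nc d0 nv) (ne_nc d0 ns) (ne_nc d0 nt) (ne_nc d1 nv) (ne_nc d1 ns)
        (ne_nc d1 nt) (ne_nc d2 nv) (ne_nc d2 ns) (ne_nc d2 nt)
      nT := f33 k1.ne.1 (ne_adj' k1.vs h.nsa) (ne_adj' k1.vs h.nta)
        (ne_adj' k2.vs hs.nsa) k2.ne.1 (ne_adj' k2.vs hs.nta)
        (ne_adj' k3.vs ht.nsa) (ne_adj' k3.vs ht.nta) k3.ne.1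
      nT' := f33 k1.ne.2.2.1 (ne_adj' k1.vt h.nsa) (ne_adj' k1.vt h.nta)
        (ne_adj' k2.vt hs.nsa) k2.ne.2.2.1 (ne_adj' k2.vt hs.nta)
        (ne_adj' k3.vt ht.nsa) (ne_adj' k3.vt ht.nta) k3.ne.2.2.1
      mT := f33 l1.ne.1 (ne_adj' l1.vs h.nsb) (ne_adj' l1.vs h.ntb)
        (ne_adj' l2.vs hs.nsb) l2.ne.1 (ne_adj' l2.vs hs.ntb)
        (ne_adj' l3.vs ht.nsb) (ne_adj' l3.vs ht.ntb) l3.ne.1
      mT' := f33 l1.ne.2.2.1 (ne_adj' l1.vt h.nsb) (ne_adj' l1.vt h.ntb)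
        (ne_adj' l2.vt hs.nsb) l2.ne.2.2.1 (ne_adj' l2.vt hs.ntb)
        (ne_adj' l3.vt ht.nsb) (ne_adj' l3.vt ht.ntb) l3.ne.2.2.1
      pp := ?_
      qq := ?_
      pqn := ?_
      pc := f33 (ne_nc d0 na').symm (ne_nc d1 na').symm (ne_nc d2 na').symm
        (ne_nc d0 ne').symm (ne_nc d1 ne').symm (ne_nc d2 ne').symm
        (ne_nc d0 ng).symm (ne_nc d1 ng).symm (ne_nc d2 ng).symm
      qc := f33 (ne_nc d0 nb').symm (ne_nc d1 nb').symm (ne_nc d2 nb').symm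
        (ne_nc d0 ne'').symm (ne_nc d1 ne'').symm (ne_nc d2 ne'').symm
        (ne_nc d0 ng').symm (ne_nc d1 ng').symm (ne_nc d2 ng').symm }
  · refine f3 ?_ ?_ ?_
    · intro y hy
      rcases nbv y hy with r | r | r | r | r | r
      · exact Or.inr (Or.inr (Or.inl ⟨1, r⟩))
      · exact Or.inr (Or.inr (Or.inl ⟨2, r⟩))
      · exact Or.inl r
      · exact Or.inr (Or.inl r)
      · exact Or.inr (Or.inr (Or.inr (Or.inl r)))
      · exact Or.inr (Or.inr (Or.inr (Or.inr r)))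
    · intro y hy
      rcases nbs y hy with r | r | r | r | r | r
      · exact Or.inr (Or.inr (Or.inl ⟨0, r⟩))
      · exact Or.inr (Or.inr (Or.inl ⟨2, r⟩))
      · exact Or.inl r
      · exact Or.inr (Or.inl r)
      · exact Or.inr (Or.inr (Or.inr (Or.inl r)))
      · exact Or.inr (Or.inr (Or.inr (Or.inr r)))
    · intro y hy
      rcases nbt y hy with r | r | r | r | r | r
      · exact Or.inr (Or.inr (Or.inl ⟨0, r⟩))
      · exact Or.inr (Or.inr (Or.inl ⟨1, r⟩))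
      · exact Or.inl r
      · exact Or.inr (Or.inl r)
      · exact Or.inr (Or.inr (Or.inr (Or.inl r)))
      · exact Or.inr (Or.inr (Or.inr (Or.inr r)))
  · have e1 : e ≠ a' := ne_adj hs.va' h.nsa
    have e2 : g ≠ a' := ne_adj ht.va' h.nta
    have e3 : g ≠ e := ne_adj ht.va' hs.nta
    exact f33 (fun h' => absurd rfl h') (fun _ => e1.symm) (fun _ => e2.symm) (fun _ => e1)
      (fun h' => absurd rfl h') (fun _ => e3.symm) (fun _ => e2) (fun _ => e3)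
      (fun h' => absurd rfl h')
  · have e1 : e' ≠ b' := ne_adj hs.vb' h.nsb
    have e2 : g' ≠ b' := ne_adj ht.vb' h.ntb
    have e3 : g' ≠ e' := ne_adj ht.vb' hs.ntb
    exact f33 (fun h' => absurd rfl h') (fun _ => e1.symm) (fun _ => e2.symm) (fun _ => e1)
      (fun h' => absurd rfl h') (fun _ => e3.symm) (fun _ => e2) (fun _ => e3)
      (fun h' => absurd rfl h')
  · exact f33 (ne_adj h.aa' h.nab') (ne_adj h.aa' hs.nab') (ne_adj h.aa' ht.nab')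
      (ne_adj hs.aa' h.nab') (ne_adj hs.aa' hs.nab') (ne_adj hs.aa' ht.nab')
      (ne_adj ht.aa' h.nab') (ne_adj ht.aa' hs.nab') (ne_adj ht.aa' ht.nab')

end Pool.Agent.LI4
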