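import Pool.Agent.LR5.Defs2

/-!
LI4: a triangle complete to two non-adjacent vertices (configuration `Cf`), admissible sets `Adm` and
the optimal pair `Opt`.
-/

set_option autoImplicit false

namespace Pool.Agent.LI4

open Pool.Agent.LG6 Pool.Agent.LR5

variable {V : Type} {G : SimpleGraph V}

/-- The triangle `x 0, x 1, x 2` is complete to `a` and to `b`; the other two neighbours of `x i` are
`p i`, adjacent to `a`, and `q i`, adjacent to `b`; `c i` is adjacent to both; `n i`, `n' i` are adjacent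
to `a`, `c i`, `p i`, and `m i`, `m' i` to `b`, `c i`, `q i`. -/
structure Cf (G : SimpleGraph V) (a b : V) (x p q c n n' m m' : Fin 3 → V) : Prop where
  xx : ∀ i j, i ≠ j → G.Adj (x i) (x j)
  ax : ∀ i, G.Adj a (x i)
  bx : ∀ i, G.Adj b (x i)
  nab : ¬ G.Adj a b
  ab : a ≠ b
  nb : ∀ i y, G.Adj (x i) y → y = a ∨ y = b ∨ (∃ j, y = x j) ∨ y = p i ∨ y = q i
  xp : ∀ i, G.Adj (x i) (p i)
  xq : ∀ i, G.Adj (x i) (q i)
  pq : ∀ i, G.Adj (p i) (q i)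
  ap : ∀ i, G.Adj a (p i)
  bq : ∀ i, G.Adj b (q i)
  nbp : ∀ i, ¬ G.Adj b (p i)
  naq : ∀ i, ¬ G.Adj a (q i)
  cp : ∀ i, G.Adj (c i) (p i)
  cq : ∀ i, G.Adj (c i) (q i)
  cn : ∀ i, G.Adj (c i) (n i)
  cn' : ∀ i, G.Adj (c i) (n' i)
  cm : ∀ i, G.Adj (c i) (m i)
  cm' : ∀ i, G.Adj (c i) (m' i)
  an : ∀ i, G.Adj a (n i)
  an' : ∀ i, G.Adj a (n' i)
  bm : ∀ i, G.Adj b (m i)
  bm' : ∀ i, G.Adj b (m' i)
  pn : ∀ i, G.Adj (p i) (n i)
  pn' : ∀ i, G.Adj (p i) (n' i)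
  qm : ∀ i, G.Adj (q i) (m i)
  qm' : ∀ i, G.Adj (q i) (m' i)
  nqn : ∀ i, ¬ G.Adj (q i) (n i)
  nqn' : ∀ i, ¬ G.Adj (q i) (n' i)
  npm : ∀ i, ¬ G.Adj (p i) (m i)
  npm' : ∀ i, ¬ G.Adj (p i) (m' i)
  nn : ∀ i, n i ≠ n' i
  mm : ∀ i, m i ≠ m' i
  pT : ∀ i j, p i ≠ x j
  qT : ∀ i j, q i ≠ x j
  cT : ∀ i j, c i ≠ x j
  nT : ∀ i j, n i ≠ x j
  nT' : ∀ i j, n' i ≠ x j
  mT : ∀ i j, m i ≠ x j
  mT' : ∀ i j, m' i ≠ x j
  pp : ∀ i j, i ≠ j → p i ≠ p j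
  qq : ∀ i j, i ≠ j → q i ≠ q j
  pqn : ∀ i j, p i ≠ q j
  pc : ∀ i j, p i ≠ c j
  qc : ∀ i j, q i ≠ c j

theorem Cf.swap {a b : V} {x p q c n n' m m' : Fin 3 → V} (h : Cf G a b x p q c n n' m m') :
    Cf G b a x q p c m m' n n' where
  xx := h.xx
  ax := h.bx
  bx := h.ax
  nab := fun h' => h.nab h'.symm
  ab := h.ab.symm
  nb := fun i y hy => by
    rcases h.nb i y hy with h | h | h | h | h
    · exact Or.inr (Or.inl h)
    · exact Or.inl h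
    · exact Or.inr (Or.inr (Or.inl h))
    · exact Or.inr (Or.inr (Or.inr (Or.inr h)))
    · exact Or.inr (Or.inr (Or.inr (Or.inl h)))
  xp := h.xq
  xq := h.xp
  pq := fun i => (h.pq i).symm
  ap := h.bq
  bq := h.ap
  nbp := h.naq
  naq := h.nbp
  cp := h.cq
  cq := h.cp
  cn := h.cm
  cn' := h.cm'
  cm := h.cn
  cm' := h.cn'
  an := h.bm
  an' := h.bm'
  bm := h.an
  bm' := h.an'
  pn := h.qm
  pn' := h.qm'
  qm := h.pn
  qm' := h.pn'
  nqn := h.npm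
  nqn' := h.npm'
  npm := h.nqn
  npm' := h.nqn'
  nn := h.mm
  mm := h.nn
  pT := h.qT
  qT := h.pT
  cT := h.cT
  nT := h.mT
  nT' := h.mT'
  mT := h.nT
  mT' := h.nT'
  pp := h.qq
  qq := h.pp
  pqn := fun i j h' => h.pqn j i h'.symm
  pc := h.qc
  qc := h.pc

/-- admissible sets: connected, containing `a` and `b`, disjoint from the triangle `x`, and containing
no pair `p i`, `q i` -/
def Adm (G : SimpleGraph V) (a b : V) (x p q : Fin 3 → V) (P : Set V) : Prop :=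
  Cn G P ∧ a ∈ P ∧ b ∈ P ∧ (∀ j, x j ∉ P) ∧ ∀ i, ¬ (p i ∈ P ∧ q i ∈ P)

theorem Adm.swap {a b : V} {x p q : Fin 3 → V} {P : Set V} (h : Adm G a b x p q P) :
    Adm G b a x q p P :=
  ⟨h.1, h.2.2.1, h.2.1, h.2.2.2.1, fun i hi => h.2.2.2.2 i ⟨hi.2, hi.1⟩⟩

/-- an optimal pair: `C` is a connected set disjoint from the admissible set `P` and from the triangle,
as large as possible, and then `P` is as small as possible -/
structure Opt (G : SimpleGraph V) (a b : V) (x p q : Fin 3 → V) (P C : Set V) : Prop where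
  adm : Adm G a b x p q P
  cc : Cn G C
  cP : Disjoint C P
  cT : ∀ j, x j ∉ C
  star : ∀ P', Adm G a b x p q P' → Disjoint C P' → ∀ y, y ∉ C → (∀ j, y ≠ x j) →
    (∃ z ∈ C, G.Adj y z) → y ∈ P'
  min : ∀ P' ⊆ P, Adm G a b x p q P' → P' = P

theorem Opt.swap {a b : V} {x p q : Fin 3 → V} {P C : Set V} (h : Opt G a b x p q P C) :
    Opt G b a x q p P C :=
  ⟨h.adm.swap, h.cc, h.cP, h.cT, fun P' hP' => h.star P' hP'.swap,
    fun P' hP hP' => h.min P' hP hP'.swap⟩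

end Pool.Agent.LI4
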