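import Pool.Agent.LD6.F4
import Pool.Agent.LD6.Fin
import Pool.Agent.LI4.Defs

/-!
LI4: the type of a vertex that is the centre of no claw.
-/

set_option autoImplicit false

namespace Pool.Agent.LI4

open Pool.Agent.LG6 Pool.Agent.LR5 Pool.Agent.LD6

variable {V : Type} {G : SimpleGraph V}

/-- no two adjacent neighbours of `x` are both centres of claws -/
def Tri1 (G : SimpleGraph V) (x : V) : Prop :=
  ∀ y z, G.Adj x y → G.Adj x z → G.Adj y z → NC G y ∨ NC G z

/-- if `x` is the centre of no claw, then `N(x)` is a 5-cycle `t a a' b' b` with a hub `s` adjacent to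
exactly three consecutive vertices `a t b` of it, and no two adjacent neighbours of `x` are both centres
of claws -/
def Typ (G : SimpleGraph V) (x : V) : Prop :=
  NC G x → (∃ s t a b a' b', T2 G x s t a b a' b') ∧ Tri1 G x

/-- all neighbours of `v` -/
theorem t2_all {v s t a b a' b' : V} (L : At G v) (h : T2 G v s t a b a' b') :
    ∀ y, G.Adj v y → y = s ∨ y = t ∨ y = a ∨ y = b ∨ y = a' ∨ y = b' :=
  L.all h.vs h.vt h.va h.vb h.va' h.vb' ⟨h.st.ne, h.sa.ne, h.sb.ne, h.ne.1, h.ne.2.1, h.ta.ne,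
    h.tb.ne, h.ne.2.2.1, h.ne.2.2.2.1, h.ne.2.2.2.2.1, h.aa'.ne, h.ne.2.2.2.2.2.1,
    h.ne.2.2.2.2.2.2, h.bb'.ne, h.ab'.ne⟩

end Pool.Agent.LI4
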