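import Pool.Agent.LI4.Defs

/-!
LI4: the admissible sets `{a, p i, c i, y, b}` (`y = m i` or `y = m' i`).

Connected: `a ~ p i ~ c i ~ y ~ b` (`Cn.insert`, `cn_single`).  No triangle vertex (`pT`, `cT`, `hyT`,
`ax`, `bx`).  No pair `p k`, `q k`: `q i` is none of the five (it is adjacent to `p i`, `c i`, `y`, `b`,
and `q i = a` gives `b ~ a`); for `k ≠ i` the vertex `p k` can only be `y` (`pp`, `pc`, `ap`, and `p k = b`
gives `a ~ b`), and then `q k` can only be `y` as well (`pqn`, `qc`, `bq`, `q k = a` gives `b ~ a`), but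
`p k ~ q k`.
-/

set_option autoImplicit false

namespace Pool.Agent.LI4

open Pool.Agent.LG6 Pool.Agent.LR5

variable {V : Type} {G : SimpleGraph V}

theorem q_adm {a b : V} {x p q c n n' m m' : Fin 3 → V} (h : Cf G a b x p q c n n' m m')
    (i : Fin 3) (y : V) (cy : G.Adj (c i) y) (by' : G.Adj b y) (qy : G.Adj (q i) y)
    (hyT : ∀ j, y ≠ x j) : Adm G a b x p q {a, p i, c i, y, b} := by
  have k1 : Cn G ({b} : Set V) := cn_single G b
  have k2 : Cn G (insert y ({b} : Set V)) := Cn.insert k1 ⟨b, rfl, by'.symm⟩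
  have k3 : Cn G (insert (c i) (insert y ({b} : Set V))) := Cn.insert k2 ⟨y, Or.inl rfl, cy⟩
  have k4 : Cn G (insert (p i) (insert (c i) (insert y ({b} : Set V)))) :=
    Cn.insert k3 ⟨c i, Or.inl rfl, (h.cp i).symm⟩
  have k5 : Cn G (insert a (insert (p i) (insert (c i) (insert y ({b} : Set V))))) :=
    Cn.insert k4 ⟨p i, Or.inl rfl, h.ap i⟩
  refine ⟨k5, Or.inl rfl, Or.inr (Or.inr (Or.inr (Or.inr rfl))), ?_, ?_⟩
  · intro j hj
    rcases hj with hj | hj | hj | hj | hj
    · exact G.irrefl (hj ▸ h.ax j)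
    · exact h.pT i j hj.symm
    · exact h.cT i j hj.symm
    · exact hyT j hj.symm
    · have hj' : x j = b := hj
      exact G.irrefl (hj' ▸ h.bx j)
  · rintro k ⟨hp, hq⟩
    have hq' : q k = y := by
      rcases hq with hq | hq | hq | hq | hq
      · exact absurd (hq ▸ h.bq k : G.Adj b a) (fun h' => h.nab h'.symm)
      · exact absurd hq.symm (h.pqn i k)
      · exact absurd hq (h.qc k i)
      · exact hq
      · have hq'' : q k = b := hq
        exact absurd (hq'' ▸ h.bq k : G.Adj b b) G.irrefl
    by_cases hki : k = i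
    · subst hki
      exact G.irrefl (hq' ▸ qy)
    · have hp' : p k = y := by
        rcases hp with hp | hp | hp | hp | hp
        · exact absurd (hp ▸ h.ap k : G.Adj a a) G.irrefl
        · exact absurd hp (h.pp k i hki)
        · exact absurd hp (h.pc k i)
        · exact hp
        · have hp'' : p k = b := hp
          exact absurd (hp'' ▸ h.ap k : G.Adj a b) h.nab
      exact h.pqn k k (hp'.trans hq'.symm)

end Pool.Agent.LI4
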