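import Pool.Agent.LI4.KNb
import Pool.Agent.LI4.KQ

/-!
LI4: case 1 (proof).
-/

set_option autoImplicit false

namespace Pool.Agent.LI4.S82

open Pool.Agent.LG6 Pool.Agent.LR5 Pool.Agent.LI4

variable {V : Type} {G : SimpleGraph V}

theorem fin3_ne {i j : Fin 3} (h : j ≠ i) : j = i + 1 ∨ j = i + 2 := by
  revert i j; decide

theorem case1 [Fintype V] (hG : IsKConnected 6 G) {a b : V} {x p q c n n' m m' : Fin 3 → V}
    (h : Cf G a b x p q c n n' m m') {P C : Set V} (o : Opt G a b x p q P C) (i : Fin 3)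
    (h1 : p i ∉ C) (h2 : q i ∉ C) (h3 : p i ∉ P) (h4 : q i ∉ P) : False := by
  classical
  have hPC : ∀ y, y ∈ P → y ∉ C := fun y hy hy' => Set.disjoint_left.1 o.cP hy' hy
  have haC : a ∉ C := hPC a o.adm.2.1
  have hbC : b ∉ C := hPC b o.adm.2.2.1
  have hp : ∀ z ∈ C, ¬ G.Adj (p i) z := fun z hz hz' =>
    h3 (o.star P o.adm o.cP (p i) h1 (h.pT i) ⟨z, hz, hz'⟩)
  have hq : ∀ z ∈ C, ¬ G.Adj (q i) z := fun z hz hz' =>
    h4 (o.star P o.adm o.cP (q i) h2 (h.qT i) ⟨z, hz, hz'⟩)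
  have hcC : c i ∉ C := fun hc => hp _ hc (h.cp i).symm
  have hnC : n i ∉ C := fun hc => hp _ hc (h.pn i)
  have hmC : m i ∉ C := fun hc => hq _ hc (h.qm i)
  have hQ1 := q_adm h i (m i) (h.cm i) (h.bm i) (h.qm i) (h.mT i)
  have hQ2 := (q_adm h.swap i (n i) (h.cn i) (h.an i) (h.pn i) (h.nT i)).swap
  have hD1 : Disjoint C ({a, p i, c i, m i, b} : Set V) := by
    rw [Set.disjoint_right]
    intro y hy
    simp only [Set.mem_insert_iff, Set.mem_singleton_iff] at hy
    rcases hy with rfl | rfl | rfl | rfl | rfl <;> assumption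
  have hD2 : Disjoint C ({b, q i, c i, n i, a} : Set V) := by
    rw [Set.disjoint_right]
    intro y hy
    simp only [Set.mem_insert_iff, Set.mem_singleton_iff] at hy
    rcases hy with rfl | rfl | rfl | rfl | rfl <;> assumption
  have hx : ∀ z ∈ C, ¬ G.Adj (x i) z := by
    intro z hz hz'
    rcases h.nb i z hz' with e | e | ⟨j, e⟩ | e | e
    · exact haC (e ▸ hz)
    · exact hbC (e ▸ hz)
    · exact o.cT j (e ▸ hz)
    · exact h1 (e ▸ hz)
    · exact h2 (e ▸ hz)
  have h6 := nbhd6 hG C (Set.nonempty_coe_sort.1 o.cc.nonempty) (x i) (o.cT i) hx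
  have hsub : ({y | y ∉ C ∧ ∃ u ∈ C, G.Adj y u} : Set V) ⊆
      (({a, c i, b, x (i + 1), x (i + 2)} : Finset V) : Set V) := by
    rintro y ⟨hyC, hyu⟩
    simp only [Finset.coe_insert, Finset.coe_singleton, Set.mem_insert_iff,
      Set.mem_singleton_iff]
    by_cases hyx : ∃ j, y = x j
    · obtain ⟨j, rfl⟩ := hyx
      have hj : j ≠ i := by
        rintro rfl
        obtain ⟨u, hu, hu'⟩ := hyu
        exact hx u hu hu'
      rcases fin3_ne hj with rfl | rfl <;> simp
    · push Not at hyx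
      have e1 := o.star _ hQ1 hD1 y hyC hyx hyu
      have e2 := o.star _ hQ2 hD2 y hyC hyx hyu
      obtain ⟨u, hu, hu'⟩ := hyu
      simp only [Set.mem_insert_iff, Set.mem_singleton_iff] at e1 e2
      rcases e1 with rfl | rfl | rfl | rfl | rfl
      · simp
      · exact (hp u hu hu').elim
      · simp
      · rcases e2 with e2 | e2 | e2 | e2 | e2
        · simp [e2]
        · exact ((h.qm i).ne e2.symm).elim
        · simp [e2]
        · exact (h.nqn i (e2 ▸ h.qm i)).elim
        · simp [e2]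
      · simp
  have h5 : ({y | y ∉ C ∧ ∃ u ∈ C, G.Adj y u} : Set V).ncard ≤ 5 := by
    refine le_trans (Set.ncard_le_ncard hsub (Finset.finite_toSet _)) ?_
    rw [Set.ncard_coe_finset]
    exact Finset.card_le_five
  omega

end Pool.Agent.LI4.S82
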