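import Pool.Agent.LI4.KNb
import Pool.Agent.LI4.KQ
import Pool.Agent.LI4.KCase1S82

/-!
LI4: case 1: neither `p i` nor `q i` lies in `C` or in `P`.

Proof.  By `o.star` with `P' := P` the vertex `p i` is not adjacent to `C`, so `c i ∉ C` and `n i ∉ C`;
in the same way `q i` is not adjacent to `C`, so `m i ∉ C`.  `a, b ∈ P` are not in `C` (`o.cP`).
So `Q1 := {a, p i, c i, m i, b}` (`q_adm`) and `Q2 := {b, q i, c i, n i, a}` (`q_adm` for `h.swap`, then
`Adm.swap`) are admissible and disjoint from `C`.  Let `S := {y | y ∉ C ∧ ∃ u ∈ C, G.Adj y u}`.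
`x i` is not adjacent to `C` (`h.nb`), so `6 ≤ S.ncard` (`nbhd6`).  By `o.star` every `y ∈ S` which is no
`x j` lies in `Q1 ∩ Q2 ⊆ {a, c i, b}` (`p i ≠ n i, q i, a, b`; `m i ≠ n i` since `q i ~ m i` and `q i` is
not adjacent to `n i`; `m i ≠ q i`), and `x i ∉ S`; so `S ⊆ {a, c i, b} ∪ {x j | j ≠ i}` has at most five
elements.
-/

set_option autoImplicit false

namespace Pool.Agent.LI4

open Pool.Agent.LG6 Pool.Agent.LR5

variable {V : Type} {G : SimpleGraph V}

theorem case1 [Fintype V] (hG : IsKConnected 6 G) {a b : V} {x p q c n n' m m' : Fin 3 → V}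
    (h : Cf G a b x p q c n n' m m') {P C : Set V} (o : Opt G a b x p q P C) (i : Fin 3)
    (h1 : p i ∉ C) (h2 : q i ∉ C) (h3 : p i ∉ P) (h4 : q i ∉ P) : False := by
  exact S82.case1 hG h o i h1 h2 h3 h4

end Pool.Agent.LI4
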