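import Pool.Agent.LI4.KNb
import Pool.Agent.LI4.KQ

/-!
LI4: proof of case 2 (see `KCase2.lean`).
-/

set_option autoImplicit false

namespace Pool.Agent.LI4

open Pool.Agent.LG6 Pool.Agent.LR5

variable {V : Type} {G : SimpleGraph V}

theorem case2_s88 [Fintype V] (hG : IsKConnected 6 G) {a b : V}
    {x p q c n n' m m' : Fin 3 → V}
    (h : Cf G a b x p q c n n' m m') {P C : Set V} (o : Opt G a b x p q P C) (i : Fin 3)
    (h1 : p i ∉ C) (h2 : q i ∉ C) (h3 : p i ∈ P) : False := by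
  classical
  obtain ⟨hPc, haP, hbP, hPT, hPpq⟩ := o.adm
  have hqP : q i ∉ P := fun h' => hPpq i ⟨h3, h'⟩
  have hqC : ∀ z ∈ C, ¬ G.Adj (q i) z := fun z hz hqz =>
    hqP (o.star P o.adm o.cP (q i) h2 (h.qT i) ⟨z, hz, hqz⟩)
  have hcC : c i ∉ C := fun h' => hqC _ h' (h.cq i).symm
  have hmC : m i ∉ C := fun h' => hqC _ h' (h.qm i)
  have hmC' : m' i ∉ C := fun h' => hqC _ h' (h.qm' i)
  have haC : a ∉ C := fun h' => Set.disjoint_left.1 o.cP h' haP
  have hbC : b ∉ C := fun h' => Set.disjoint_left.1 o.cP h' hbP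
  have hd1 : Disjoint C ({a, p i, c i, m i, b} : Set V) := by
    rw [Set.disjoint_left]
    rintro y hy (rfl | rfl | rfl | rfl | rfl)
    · exact haC hy
    · exact h1 hy
    · exact hcC hy
    · exact hmC hy
    · exact hbC hy
  have hd2 : Disjoint C ({a, p i, c i, m' i, b} : Set V) := by
    rw [Set.disjoint_left]
    rintro y hy (rfl | rfl | rfl | rfl | rfl)
    · exact haC hy
    · exact h1 hy
    · exact hcC hy
    · exact hmC' hy
    · exact hbC hy
  have hA1 := q_adm h i (m i) (h.cm i) (h.bm i) (h.qm i) (h.mT i)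
  have hA2 := q_adm h i (m' i) (h.cm' i) (h.bm' i) (h.qm' i) (h.mT' i)
  have hxC : ∀ y ∈ C, ¬ G.Adj (x i) y := by
    intro y hy hxy
    rcases h.nb i y hxy with rfl | rfl | ⟨j, rfl⟩ | rfl | rfl
    · exact haC hy
    · exact hbC hy
    · exact o.cT j hy
    · exact h1 hy
    · exact h2 hy
  have h6 := nbhd6 hG C o.cc.ne (x i) (o.cT i) hxC
  set S : Set V := {y | y ∉ C ∧ ∃ u ∈ C, G.Adj y u} with hS
  -- the elements of `S`
  have hS1 : ∀ y ∈ S, (∀ j, y ≠ x j) → y = a ∨ y = p i ∨ y = c i ∨ y = b := by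
    rintro y ⟨hy1, hy2⟩ hy3
    have k1 := o.star _ hA1 hd1 y hy1 hy3 hy2
    have k2 := o.star _ hA2 hd2 y hy1 hy3 hy2
    rcases k1 with k1 | k1 | k1 | k1 | k1
    · exact Or.inl k1
    · exact Or.inr (Or.inl k1)
    · exact Or.inr (Or.inr (Or.inl k1))
    · rcases k2 with k2 | k2 | k2 | k2 | k2
      · exact Or.inl k2
      · exact Or.inr (Or.inl k2)
      · exact Or.inr (Or.inr (Or.inl k2))
      · exact absurd (k1.symm.trans k2) (h.mm i)
      · exact Or.inr (Or.inr (Or.inr k2))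
    · exact Or.inr (Or.inr (Or.inr k1))
  have hxiS : x i ∉ S := by
    rintro ⟨-, u, hu, hxu⟩
    exact hxC u hu hxu
  have hxS : ∀ j, j ≠ i → x j ∈ S := by
    intro j hji
    by_contra hj
    obtain ⟨k, hk⟩ : ∃ k : Fin 3, ∀ l, l ≠ i → l ≠ j → l = k := by
      revert hji
      clear * -
      revert i j
      decide
    have hsub : S ⊆ (↑({a, p i, c i, b, x k} : Finset V) : Set V) := by
      intro y hy
      rw [Finset.mem_coe]
      simp only [Finset.mem_insert, Finset.mem_singleton]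
      by_cases hyx : ∀ l, y ≠ x l
      · rcases hS1 y hy hyx with e | e | e | e
        · exact Or.inl e
        · exact Or.inr (Or.inl e)
        · exact Or.inr (Or.inr (Or.inl e))
        · exact Or.inr (Or.inr (Or.inr (Or.inl e)))
      · push Not at hyx
        obtain ⟨l, rfl⟩ := hyx
        have hli : l ≠ i := fun e => hxiS (e ▸ hy)
        have hlj : l ≠ j := fun e => hj (e ▸ hy)
        rw [hk l hli hlj]
        exact Or.inr (Or.inr (Or.inr (Or.inr rfl)))
    have h7 := Set.ncard_le_ncard hsub (Finset.finite_toSet _)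
    rw [Set.ncard_coe_finset] at h7
    have h8 : ({a, p i, c i, b, x k} : Finset V).card ≤ 5 := Finset.card_le_five
    omega
  have hpq : ∀ j, j ≠ i → p j ∈ C ∧ q j ∈ C := by
    intro j hji
    obtain ⟨-, u, hu, hxu⟩ := hxS j hji
    have hqS : ∀ z ∈ C, G.Adj (q j) z → q j ∈ C := by
      intro z hz hqz
      by_contra hq
      rcases hS1 (q j) ⟨hq, z, hz, hqz⟩ (h.qT j) with e | e | e | e
      · exact h.nab ((e ▸ h.bq j : G.Adj b a).symm)
      · exact h.pqn i j e.symm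
      · exact h.qc j i e
      · exact (h.bq j).ne e.symm
    have hpS : ∀ z ∈ C, G.Adj (p j) z → p j ∈ C := by
      intro z hz hqz
      by_contra hq
      rcases hS1 (p j) ⟨hq, z, hz, hqz⟩ (h.pT j) with e | e | e | e
      · exact (h.ap j).ne e.symm
      · exact h.pp j i hji e
      · exact h.pc j i e
      · exact h.nab (e ▸ h.ap j : G.Adj a b)
    rcases h.nb j u hxu with rfl | rfl | ⟨l, rfl⟩ | rfl | rfl
    · exact absurd hu haC
    · exact absurd hu hbC
    · exact absurd hu (o.cT l)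
    · exact ⟨hu, hqS _ hu (h.pq j).symm⟩
    · exact ⟨hpS _ hu (h.pq j), hu⟩
  -- the separator
  set S5 : Finset V := {a, b, p i, c i, x i} with hS5
  have hmem : ∀ y, y ∈ S5 ↔ y = a ∨ y = b ∨ y = p i ∨ y = c i ∨ y = x i := by
    intro y
    rw [hS5]
    simp only [Finset.mem_insert, Finset.mem_singleton]
  have hcard : S5.card ≤ 5 := Finset.card_le_five
  have hqi : q i ∉ S5 := by
    rw [hmem]
    rintro (e | e | e | e | e)
    · exact h.nab ((e ▸ h.bq i : G.Adj b a).symm)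
    · exact (h.bq i).ne e.symm
    · exact h.pqn i i e.symm
    · exact h.qc i i e
    · exact h.qT i i e
  obtain ⟨u, hu⟩ := o.cc.ne
  have huS : u ∉ S5 := by
    rw [hmem]
    rintro (rfl | rfl | rfl | rfl | rfl)
    · exact haC hu
    · exact hbC hu
    · exact h1 hu
    · exact hcC hu
    · exact o.cT i hu
  obtain ⟨g, z, hg, hz, hgz, hgM, hzM⟩ := cross (hG.2 S5 (by omega))
    {y | y ∉ C ∧ y ∉ S5 ∧ ∀ j, j ≠ i → y ≠ x j} (e := q i) (f := u)
    (fun h' => hqi (Finset.mem_coe.1 h')) (fun h' => huS (Finset.mem_coe.1 h'))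
    ⟨h2, hqi, fun j _ => h.qT i j⟩ (fun h' => h'.1 hu)
  obtain ⟨hg1, hg2, hg3⟩ := hgM
  have hzS : z ∉ S5 := fun h' => hz (Finset.mem_coe.2 h')
  have hgx : ∀ l, g ≠ x l := by
    intro l e
    by_cases hl : l = i
    · exact hg2 ((hmem g).2 (Or.inr (Or.inr (Or.inr (Or.inr (by rw [e, hl]))))))
    · exact hg3 l hl e
  by_cases hzC : z ∈ C
  · rcases hS1 g ⟨hg1, z, hzC, hgz⟩ hgx with e | e | e | e
    · exact hg2 ((hmem g).2 (Or.inl e))
    · exact hg2 ((hmem g).2 (Or.inr (Or.inr (Or.inl e))))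
    · exact hg2 ((hmem g).2 (Or.inr (Or.inr (Or.inr (Or.inl e)))))
    · exact hg2 ((hmem g).2 (Or.inr (Or.inl e)))
  · have hzx : ∃ j, j ≠ i ∧ z = x j := by
      by_contra hno
      apply hzM
      refine ⟨hzC, hzS, fun j hj e => hno ⟨j, hj, e⟩⟩
    obtain ⟨j, hji, rfl⟩ := hzx
    rcases h.nb j g hgz.symm with e | e | ⟨l, e⟩ | e | e
    · exact hg2 ((hmem g).2 (Or.inl e))
    · exact hg2 ((hmem g).2 (Or.inr (Or.inl e)))
    · exact hgx l e
    · exact hg1 (e ▸ (hpq j hji).1)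
    · exact hg1 (e ▸ (hpq j hji).2)

end Pool.Agent.LI4
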