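import Pool.Agent.LI4.KNb
import Pool.Agent.LI4.KQ
import Pool.Agent.LI4.KCase2S88

/-!
LI4: case 2: neither `p i` nor `q i` lies in `C`, and `p i ∈ P`.

Proof.  `q i ∉ P` (`o.adm`), so by `o.star` with `P' := P` the vertex `q i` is not adjacent to `C`, so
`c i, m i, m' i ∉ C`.  `Q1 := {a, p i, c i, m i, b}` and `Q1' := {a, p i, c i, m' i, b}` are admissible
(`q_adm`) and disjoint from `C` (`a, b, p i ∈ P`).  Let `S := {y | y ∉ C ∧ ∃ u ∈ C, G.Adj y u}`.  `x i` is
not adjacent to `C` (`h.nb`), so `6 ≤ S.ncard` (`nbhd6`).  By `o.star` every `y ∈ S` which is no `x j` lies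
in `Q1 ∩ Q1' ⊆ {a, p i, c i, b}` (`h.mm`).  So `S ⊆ {a, p i, c i, b} ∪ {x j | j ≠ i}`, and as
`6 ≤ S.ncard` both `x j` with `j ≠ i` are in `S`.
For `j ≠ i`: `x j` is adjacent to `C`, so (`h.nb`) `p j ∈ C` or `q j ∈ C`; if one of them is in `C` then
so is the other one (it is adjacent to the first one, so otherwise it would be in
`S \ {x k} ⊆ {a, p i, c i, b}`: impossible by `nab`, `ap`, `bq`, `pp`/`pqn`, `pc`/`qc`).
Let `S5 := {a, b, p i, c i, x i}` (at most five vertices); `V \ S5` is connected (`hG.2`).  It contains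
`q i` and meets `C` (`C` is disjoint from `S5`).  Let `M` be the set of the vertices not in
`C ∪ S5 ∪ {x j | j ≠ i}`; `q i ∈ M`.  There is an edge `m z` with `m ∈ M`, `z ∉ M`, both outside `S5`
(`LG6.cross` or `Cn.exit`).  If `z ∈ C` then `m ∈ S`, so `m` is one of `a, p i, c i, b` or an `x j`:
contradiction.  If `z = x j`, `j ≠ i`: by `h.nb` `m` is `a`, `b`, an `x k`, `p j` or `q j`: contradiction.
-/

set_option autoImplicit false

namespace Pool.Agent.LI4

open Pool.Agent.LG6 Pool.Agent.LR5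

variable {V : Type} {G : SimpleGraph V}

theorem case2 [Fintype V] (hG : IsKConnected 6 G) {a b : V} {x p q c n n' m m' : Fin 3 → V}
    (h : Cf G a b x p q c n n' m m') {P C : Set V} (o : Opt G a b x p q P C) (i : Fin 3)
    (h1 : p i ∉ C) (h2 : q i ∉ C) (h3 : p i ∈ P) : False :=
  case2_s88 hG h o i h1 h2 h3

end Pool.Agent.LI4
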