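import Pool.Agent.LI4.KNb

/-!
LI4: the final model.  Every `x i` is adjacent to `C`.

Proof.  `P \ {a}` is connected (`min_conn`, `o.min`: a connected subset of `P` containing `a` and `b` is
admissible).  If some `p k ∈ C`: the sets `{x 0}, {x 1}, {x 2}, {a}, P \ {a}, C` form a `K₆` model:
`a ~ x i`; `b ∈ P \ {a}`, `b ~ x i`; `x i` is adjacent to `C` through `p i` or `q i`; `a` is adjacent to
`P \ {a}` (`P` connected, `Cn.exit`); `a ~ p k ∈ C`; `P \ {a}` is adjacent to `C`: if `q k ∈ C` by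
`b ~ q k`, otherwise `q k` is adjacent to `p k ∈ C`, so `q k ∈ P` by `o.star`, and `q k ≠ a`.
(`mk6`-style: see `LR5.mk5`, or the lemmas of LG6 which build `HasCompleteMinor 6`.)
If no `p k ∈ C` then all `q k ∈ C`: the first case for `h.swap`, `o.swap`.
-/

set_option autoImplicit false

namespace Pool.Agent.LI4

open Pool.Agent.LG6 Pool.Agent.LR5

variable {V : Type} {G : SimpleGraph V}

theorem fin1 {a b : V} {x p q c n n' m m' : Fin 3 → V}
    (h : Cf G a b x p q c n n' m m') {P C : Set V} (o : Opt G a b x p q P C)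
    (h1 : ∀ i, p i ∈ C ∨ q i ∈ C) (k : Fin 3) (hk : p k ∈ C) : HasCompleteMinor 6 G := by
  have hinj : Function.Injective x := by
    intro i j hij
    by_contra hne
    exact (h.xx i j hne).ne hij
  have haP : a ∈ P := o.adm.2.1
  have hbP : b ∈ P := o.adm.2.2.1
  have hxP : ∀ j, x j ∉ P := o.adm.2.2.2.1
  have hPc : Cn G (P \ {a}) := by
    apply min_conn o.adm.1 haP hbP h.ab
    intro P' hP' hc ha hb
    exact o.min P' hP' ⟨hc, ha, hb, fun j hj => hxP j (hP' hj),
      fun i hi => o.adm.2.2.2.2 i ⟨hP' hi.1, hP' hi.2⟩⟩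
  have hbP' : b ∈ P \ {a} := ⟨hbP, fun hb => h.ab (Set.mem_singleton_iff.1 hb).symm⟩
  have haC : a ∉ C := fun ha => Set.disjoint_left.1 o.cP ha haP
  have hA : ∃ y ∈ P \ {a}, G.Adj a y := by
    obtain ⟨g, g', hg, hg', hgg, hga, hg'a⟩ :=
      o.adm.1.exit (P := {a}) ⟨a, haP, rfl⟩ ⟨b, hbP, hbP'.2⟩
    rw [Set.mem_singleton_iff] at hga
    rw [hga] at hgg
    exact ⟨g', ⟨hg', hg'a⟩, hgg⟩
  have hQ : ∃ y ∈ P \ {a}, ∃ z ∈ C, G.Adj y z := by
    by_cases hqC : q k ∈ C
    · exact ⟨b, hbP', q k, hqC, h.bq k⟩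
    · have hqP : q k ∈ P :=
        o.star P o.adm o.cP (q k) hqC (fun j => h.qT k j) ⟨p k, hk, (h.pq k).symm⟩
      refine ⟨q k, ⟨hqP, ?_⟩, p k, hk, (h.pq k).symm⟩
      intro hqa
      rw [Set.mem_singleton_iff] at hqa
      have h2 := h.bq k
      rw [hqa] at h2
      exact h.nab h2.symm
  have hxC : ∀ i, ∃ y ∈ C, G.Adj (x i) y := by
    intro i
    rcases h1 i with h2 | h2
    · exact ⟨p i, h2, h.xp i⟩
    · exact ⟨q i, h2, h.xq i⟩
  have hT : ∀ e, e ∈ Finset.univ.map ⟨x, hinj⟩ → ∃ i, x i = e := by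
    intro e he
    obtain ⟨i, _, hi⟩ := Finset.mem_map.1 he
    exact ⟨i, hi⟩
  have d01 : Disjoint ({a} : Set V) (P \ {a}) := by
    rw [Set.disjoint_singleton_left]
    exact fun h' => h'.2 rfl
  have d02 : Disjoint ({a} : Set V) C := by
    rw [Set.disjoint_singleton_left]
    exact haC
  have d12 : Disjoint (P \ {a}) C :=
    (Set.disjoint_of_subset_right Set.sdiff_subset o.cP).symm
  have g01 : ∃ y ∈ ({a} : Set V), ∃ z ∈ P \ {a}, G.Adj y z := by
    obtain ⟨y, hy, hay⟩ := hA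
    exact ⟨a, rfl, y, hy, hay⟩
  have g02 : ∃ y ∈ ({a} : Set V), ∃ z ∈ C, G.Adj y z := ⟨a, rfl, p k, hk, h.ap k⟩
  have hs : ∀ {S T : Set V}, (∃ y ∈ S, ∃ z ∈ T, G.Adj y z) → ∃ y ∈ T, ∃ z ∈ S, G.Adj y z := by
    rintro S T ⟨y, hy, z, hz, hyz⟩
    exact ⟨z, hz, y, hy, hyz.symm⟩
  refine clique_model (Finset.univ.map ⟨x, hinj⟩) ?_ (J := Fin 3)
    (![{a}, P \ {a}, C] : Fin 3 → Set V) ?_ ?_ ?_ ?_ ?_ ?_
  · intro e he f hf hef
    obtain ⟨i, rfl⟩ := hT e he
    obtain ⟨j, rfl⟩ := hT f hf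
    exact h.xx i j (fun hij => hef (by rw [hij]))
  · intro j
    fin_cases j
    · exact cn_single G a
    · exact hPc
    · exact o.cc
  · intro e he j
    obtain ⟨i, rfl⟩ := hT e he
    fin_cases j
    · intro h2
      exact (h.ax i).ne (Set.mem_singleton_iff.1 h2).symm
    · exact fun h2 => hxP i h2.1
    · exact o.cT i
  · intro i j hij
    fin_cases i <;> fin_cases j
    · exact absurd rfl hij
    · exact d01
    · exact d02
    · exact d01.symm
    · exact absurd rfl hij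
    · exact d12
    · exact d02.symm
    · exact d12.symm
    · exact absurd rfl hij
  · intro i j hij
    fin_cases i <;> fin_cases j
    · exact absurd rfl hij
    · exact g01
    · exact g02
    · exact hs g01
    · exact absurd rfl hij
    · exact hQ
    · exact hs g02
    · exact hs hQ
    · exact absurd rfl hij
  · intro e he j
    obtain ⟨i, rfl⟩ := hT e he
    fin_cases j
    · exact ⟨a, rfl, (h.ax i).symm⟩
    · exact ⟨b, hbP', (h.bx i).symm⟩
    · exact hxC i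
  · rw [Finset.card_map, Finset.card_univ, Fintype.card_fin]

theorem fin2 {a b : V} {x p q c n n' m m' : Fin 3 → V}
    (h : Cf G a b x p q c n n' m m') {P C : Set V} (o : Opt G a b x p q P C)
    (h1 : ∀ i, p i ∈ C ∨ q i ∈ C) : HasCompleteMinor 6 G := by
  by_cases h2 : p 0 ∈ C
  · exact fin1 h o h1 0 h2
  · exact fin1 h.swap o.swap (fun i => (h1 i).symm) 0 ((h1 0).resolve_left h2)

end Pool.Agent.LI4
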