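import Pool.Agent.LI4.KOpt
import Pool.Agent.LI4.KCase1
import Pool.Agent.LI4.KCase2
import Pool.Agent.LI4.KFin

/-!
LI4, Lemma K: the configuration `Cf` in a 6-connected graph gives a `K₆` minor.
-/

set_option autoImplicit false

namespace Pool.Agent.LI4

open Pool.Agent.LG6 Pool.Agent.LR5

variable {V : Type} {G : SimpleGraph V}

theorem lemmaK [Fintype V] (hG : IsKConnected 6 G) {a b : V} {x p q c n n' m m' : Fin 3 → V}
    (h : Cf G a b x p q c n n' m m') : HasCompleteMinor 6 G := by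
  have hP := q_adm h 0 (m 0) (h.cm 0) (h.bm 0) (h.qm 0) (h.mT 0)
  have hne : m' 0 ∉ ({a, p 0, c 0, m 0, b} : Set V) := by
    simp only [Set.mem_insert_iff, Set.mem_singleton_iff, not_or]
    refine ⟨fun e => ?_, fun e => ?_, fun e => ?_, fun e => h.mm 0 e.symm, fun e => ?_⟩
    · exact h.nab ((e ▸ h.bm' 0 : G.Adj b a)).symm
    · exact h.nbp 0 (e ▸ h.bm' 0)
    · exact (h.cm' 0).ne e.symm
    · exact (h.bm' 0).ne e.symm
  obtain ⟨P, C, o⟩ := exists_opt hP (cn_single G (m' 0))
    (Set.disjoint_singleton_left.2 hne) (fun j hj => h.mT' 0 j (Set.mem_singleton_iff.1 hj).symm)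
  refine fin2 h o fun i => ?_
  by_contra hno
  push Not at hno
  by_cases h3 : p i ∈ P
  · exact case2 hG h o i hno.1 hno.2 h3
  · by_cases h4 : q i ∈ P
    · exact case2 hG h.swap o.swap i hno.2 hno.1 h4
    · exact case1 hG h o i hno.1 hno.2 h3 h4

end Pool.Agent.LI4
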