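import Pool.Agent.LI4.Defs

/-!
LI4: two general lemmas.

`nbhd6`: in a 6-connected graph a nonempty set `C` and a vertex `z` outside `C` and not adjacent to it
are separated by the neighbourhood of `C`, which has at least six vertices.  Proof: let `S` be the
`Finset` of the vertices outside `C` adjacent to `C`; if `S.card < 6`, then `V \ S` is connected
(`hG.2`), it contains `C` and `z`, so (`LG6.cross` or `Cn.exit`) there is an edge from `C` to a vertex
outside `C` and outside `S`, contradiction.

`min_conn`: `P` connected, `a`, `b ∈ P` different, and no proper subset of `P` containing `a` and `b` is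
connected; then `P \ {a}` is connected.  Proof: let `K` be the set of vertices of `P \ {a}` reachable
from `b` inside `P \ {a}` (connected, contains `b`, e.g. `LG6.reach_conn`); as `P` is connected, some edge
leaves `K` inside `P` (`Cn.exit`) and its end must be `a`; so `insert a K` is connected, hence equal to
`P`, and `K = P \ {a}`.
-/

set_option autoImplicit false

namespace Pool.Agent.LI4

open Pool.Agent.LG6 Pool.Agent.LR5

variable {V : Type} {G : SimpleGraph V}

theorem nbhd6 [Fintype V] (hG : IsKConnected 6 G) (C : Set V) (hC : C.Nonempty) (z : V)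
    (hz : z ∉ C) (hz' : ∀ y ∈ C, ¬ G.Adj z y) :
    6 ≤ ({y | y ∉ C ∧ ∃ u ∈ C, G.Adj y u} : Set V).ncard := by
  classical
  by_contra hlt
  push Not at hlt
  set S : Set V := {y | y ∉ C ∧ ∃ u ∈ C, G.Adj y u} with hS
  have hfin : S.Finite := Set.toFinite S
  have hc : hfin.toFinset.card < 6 := by
    rwa [← Set.ncard_eq_toFinset_card S hfin]
  obtain ⟨c, hcC⟩ := hC
  obtain ⟨g, g', hg, hg', hgg, hgC, hgC'⟩ := cross (hG.2 hfin.toFinset hc) C (e := c) (f := z)
    (fun h' => by
      rw [Set.Finite.coe_toFinset] at h'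
      exact h'.1 hcC)
    (fun h' => by
      rw [Set.Finite.coe_toFinset] at h'
      obtain ⟨_, u, hu, hzu⟩ := h'
      exact hz' u hu hzu) hcC hz
  apply hg'
  rw [Set.Finite.coe_toFinset]
  exact ⟨hgC', g, hgC, hgg.symm⟩

theorem min_conn {P : Set V} (hP : Cn G P) {a b : V} (ha : a ∈ P) (hb : b ∈ P) (hab : a ≠ b)
    (hmin : ∀ P' ⊆ P, Cn G P' → a ∈ P' → b ∈ P' → P' = P) : Cn G (P \ {a}) := by
  have hb' : b ∈ P \ {a} := ⟨hb, fun h' => hab (Set.mem_singleton_iff.1 h').symm⟩
  obtain ⟨K, hK, hbK, hKc, hcl⟩ := comp G (P \ {a}) b hb'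
  have haK : a ∉ K := fun h' => (hK h').2 rfl
  obtain ⟨g, g', hg, hg', hgg, hgK, hgK'⟩ := hP.exit (P := K) ⟨b, hb, hbK⟩ ⟨a, ha, haK⟩
  have hga : g' = a := by
    by_contra hne
    exact hgK' (hcl g hgK g' ⟨hg', hne⟩ hgg)
  rw [hga] at hgg
  have h1 : Cn G (insert a K) := Cn.insert hKc ⟨g, hgK, hgg.symm⟩
  have h2 : insert a K = P := by
    apply hmin _ _ h1 (Set.mem_insert a K) (Set.mem_insert_of_mem a hbK)
    intro y hy
    rcases Set.mem_insert_iff.1 hy with rfl | hy
    · exact ha
    · exact (hK hy).1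
  have h3 : P \ {a} = K := by
    apply Set.Subset.antisymm
    · rintro y ⟨hy, hya⟩
      rw [← h2] at hy
      rcases Set.mem_insert_iff.1 hy with h' | h'
      · exact absurd h' hya
      · exact h'
    · exact hK
  rw [h3]
  exact hKc

end Pool.Agent.LI4
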