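import Pool.Agent.LI4.Defs

/-!
LI4: an optimal pair exists.

Proof: among all pairs `(P, C)` with `P` admissible, `C` connected, disjoint from `P` and from the
triangle, choose one with `C.ncard` maximal and, among these, `P.ncard` minimal (finite type).
`star`: otherwise `insert y C` is connected (`Cn.insert`), disjoint from `P'` and from the triangle, and
larger.  `min`: `P' ⊆ P` admissible is disjoint from `C`, so `P.ncard ≤ P'.ncard`, hence `P' = P`
(`Set.eq_of_subset_of_ncard_le`).
-/

set_option autoImplicit false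

namespace Pool.Agent.LI4

open Pool.Agent.LG6 Pool.Agent.LR5

variable {V : Type} {G : SimpleGraph V}

theorem exists_opt [Finite V] {a b : V} {x p q : Fin 3 → V} {P C : Set V}
    (hP : Adm G a b x p q P) (hC : Cn G C) (hCP : Disjoint C P) (hCT : ∀ j, x j ∉ C) :
    ∃ P C, Opt G a b x p q P C := by
  classical
  set S : Set (Set V × Set V) := {z | Adm G a b x p q z.1 ∧ Cn G z.2 ∧ Disjoint z.2 z.1 ∧
    ∀ j, x j ∉ z.2} with hS
  have hfin : S.Finite := Set.toFinite S
  have hne : S.Nonempty := ⟨(P, C), hP, hC, hCP, hCT⟩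
  obtain ⟨z1, hz1, hmax⟩ := Set.exists_max_image S (fun z => z.2.ncard) hfin hne
  set S2 : Set (Set V × Set V) := {z | z ∈ S ∧ z.2.ncard = z1.2.ncard} with hS2
  obtain ⟨z, ⟨hz, hzc⟩, hmin⟩ := Set.exists_min_image S2 (fun z => z.1.ncard) (Set.toFinite S2)
    ⟨z1, hz1, rfl⟩
  obtain ⟨h1, h2, h3, h4⟩ := hz
  refine ⟨z.1, z.2, h1, h2, h3, h4, ?_, ?_⟩
  · intro P' hP' hd y hy hyx hyz
    by_contra hyP
    obtain ⟨w, hw, hyw⟩ := hyz
    have h5 : ((P', insert y z.2) : Set V × Set V) ∈ S := by
      refine ⟨hP', Cn.insert h2 ⟨w, hw, hyw⟩, ?_, ?_⟩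
      · rw [Set.disjoint_left]
        intro u hu hu'
        rcases hu with rfl | hu
        · exact hyP hu'
        · exact Set.disjoint_left.1 hd hu hu'
      · intro j hj
        rcases hj with hj | hj
        · exact hyx j hj.symm
        · exact h4 j hj
    have h6 := hmax _ h5
    have h7 : (insert y z.2).ncard = z.2.ncard + 1 :=
      Set.ncard_insert_of_notMem hy (Set.toFinite _)
    simp only at h6
    omega
  · intro P' hsub hP'
    have h5 : ((P', z.2) : Set V × Set V) ∈ S2 :=
      ⟨⟨hP', h2, h3.mono_right hsub, h4⟩, hzc⟩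
    have h6 := hmin _ h5
    exact Set.eq_of_subset_of_ncard_le hsub h6 (Set.toFinite _)

end Pool.Agent.LI4
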