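import Pool.Agent.LI4.AClaw
import Pool.Agent.LI4.RoleP

/-!
LI4: the vertices `a'`, `b'` of `T2 G v s t a b a' b'`: they have the same third claw centre `c`.

Proof.  `aclaw` for `h` and `h.rev` (`T2.rev`): `a`, `b` are not `NC`.  `a ~ a'` are neighbours of `v`, so
`NC G a'` (`Tri1 G v`), the same for `b'`.  `Typ G a'` gives a `T2` at `a'`; `aclaw` for it and for its
`rev` (the neighbours of `a'` are at distance two from `v`: `h2`) and `role_a'` give `n, n', c` with
`T2 G a' n n' a c v b'`, `c` not `NC`.  In the same way, with `h.rev : T2 G v s t b a b' a'`: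
`T2 G b' m m' b d v a'`, `d` not `NC`.  `d ~ a'` (field `ab'`... `bb'` of the last one: `d ~ a'`), so
`d` is one of `n, n', a, c, v, b'` (`t2_all` at `a'`).  `n`: `n ~ a` are neighbours of `a'`, `a` is not
`NC`, so `n` is `NC` (`Tri1 G a'`), `d ≠ n`; same for `n'`; `d ≠ a` as `d ~ b'` and `a` is not adjacent
to `b'`; `d ≠ v` (`v` is `NC`), `d ≠ b'` (`b'` is `NC`).  So `d = c`.
-/

set_option autoImplicit false

namespace Pool.Agent.LI4

open Pool.Agent.LG6 Pool.Agent.LR5 Pool.Agent.LD6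

variable {V : Type} {G : SimpleGraph V}

theorem step [Fintype V] (hG : IsKConnected 6 G) (hm : ¬ HasCompleteMinor 6 G)
    {v s t a b a' b' : V} (hv : NC G v) (h : T2 G v s t a b a' b') (hT : Tri1 G v)
    (h1 : ∀ x, G.Adj v x → Typ G x) (h2 : ∀ x y, G.Adj v x → G.Adj x y → Typ G y) :
    ∃ c n n' m m', T2 G a' n n' a c v b' ∧ T2 G b' m m' b c v a' ∧ ¬ NC G c ∧ NC G a' ∧
      NC G b' := by
  have na : ¬ NC G a := aclaw hG hm hv h hT h1
  have nb : ¬ NC G b := aclaw hG hm hv h.rev hT h1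
  have ca' : NC G a' := (hT a a' h.va h.va' h.aa').resolve_left na
  have cb' : NC G b' := (hT b b' h.vb h.vb' h.bb').resolve_left nb
  have Av := At.mk' hG hm hv
  have Aa' := At.mk' hG hm ca'
  have Ab' := At.mk' hG hm cb'
  obtain ⟨⟨p, q, x, y, x', y', ha'⟩, Ta'⟩ := h1 a' h.va' ca'
  have nx : ¬ NC G x := aclaw hG hm ca' ha' Ta' (fun z hz => h2 a' z h.va' hz)
  have ny : ¬ NC G y := aclaw hG hm ca' ha'.rev Ta' (fun z hz => h2 a' z h.va' hz)
  obtain ⟨n, n', c, H1, nc⟩ := role_a' Av Aa' h ha' cb' nx ny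
  obtain ⟨⟨p2, q2, x2, y2, x2', y2', hb'⟩, Tb'⟩ := h1 b' h.vb' cb'
  have nx2 : ¬ NC G x2 := aclaw hG hm cb' hb' Tb' (fun z hz => h2 b' z h.vb' hz)
  have ny2 : ¬ NC G y2 := aclaw hG hm cb' hb'.rev Tb' (fun z hz => h2 b' z h.vb' hz)
  obtain ⟨m, m', d, H2, nd⟩ := role_a' Av Ab' h.rev hb' ca' nx2 ny2
  have hd : d = c := by
    rcases t2_all Aa' H1 d H2.bb'.symm with hd | hd | hd | hd | hd | hd
    · subst hd
      rcases Ta' d a H1.vs H1.va H1.sa with h3 | h3
      · exact absurd h3 nd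
      · exact absurd h3 na
    · subst hd
      rcases Ta' d a H1.vt H1.va H1.ta with h3 | h3
      · exact absurd h3 nd
      · exact absurd h3 na
    · subst hd
      exact absurd H2.vb.symm h.nab'
    · exact hd
    · subst hd
      exact absurd hv nd
    · subst hd
      exact absurd cb' nd
  subst hd
  exact ⟨d, n, n', m, m', H1, H2, nc, ca', cb'⟩

end Pool.Agent.LI4
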