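import Pool.Agent.LI4.Ty
import Pool.Agent.LI4.Step
import Pool.Agent.LI4.Conf
import Pool.Agent.LI4.K

/-!
LI4: the main theorem.
-/

set_option autoImplicit false

namespace Pool.Agent.LI4

open Pool.Agent.LG6 Pool.Agent.LR5 Pool.Agent.LD6

variable {V : Type} {G : SimpleGraph V}

/-- If `v` is the centre of no claw and no vertex at distance at most three from `v` that is the centre
of no claw is in a triangle with two claw centres, then `G` is apex. -/
theorem main [Fintype V] (hG : IsKConnected 6 G) (hm : ¬ HasCompleteMinor 6 G) {v : V}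
    (hv : NC G v) (h0 : NC G v → Tri1 G v) (h1 : ∀ x, G.Adj v x → NC G x → Tri1 G x)
    (h2 : ∀ x y, G.Adj v x → G.Adj x y → NC G y → Tri1 G y)
    (h3 : ∀ x y z, G.Adj v x → G.Adj x y → G.Adj y z → NC G z → Tri1 G z) :
    ∃ p, NoMin G {p} := by
  classical
  by_contra hA
  have ty : ∀ x, (NC G x → Tri1 G x) → Typ G x := fun x hx hn => typ_of hG hm hA (hx hn) hn
  have T1 : ∀ x, G.Adj v x → Typ G x := fun x hx => ty x (h1 x hx)
  have T2' : ∀ x y, G.Adj v x → G.Adj x y → Typ G y := fun x y hx hy => ty y (h2 x y hx hy)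
  have T3' : ∀ x y z, G.Adj v x → G.Adj x y → G.Adj y z → Typ G z := fun x y z hx hy hz =>
    ty z (h3 x y z hx hy hz)
  obtain ⟨⟨s, t, a, b, a', b', h⟩, hT⟩ := ty v h0 hv
  have na := aclaw hG hm hv h hT T1
  have nb := aclaw hG hm hv h.rev hT T1
  have ns : NC G s := (hT a s h.va h.vs h.sa.symm).resolve_left na
  have nt : NC G t := (hT a t h.va h.vt h.ta.symm).resolve_left na
  obtain ⟨⟨_, _, _, _, _, _, hs'⟩, hTs⟩ := T1 s h.vs ns
  obtain ⟨⟨_, _, _, _, _, _, ht'⟩, hTt⟩ := T1 t h.vt nt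
  have Av := At.mk' hG hm hv
  have As := At.mk' hG hm ns
  have At' := At.mk' hG hm nt
  obtain ⟨e, e', hs⟩ := role_s Av As h hs'
  obtain ⟨g, g', ht⟩ := role_s Av At' h.swap ht'
  obtain ⟨c₀, n₀, n₀', m₀, m₀', k1, l1, d0, na', nb'⟩ := step hG hm hv h hT T1 T2'
  obtain ⟨c₁, n₁, n₁', m₁, m₁', k2, l2, d1, ne, ne'⟩ := step hG hm ns hs hTs
    (fun x hx => T2' s x h.vs hx) (fun x y hx hy => T3' s x y h.vs hx hy)
  obtain ⟨c₂, n₂, n₂', m₂, m₂', k3, l3, d2, ng, ng'⟩ := step hG hm nt ht hTt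
    (fun x hx => T2' t x h.vt hx) (fun x y hx hy => T3' t x y h.vt hx hy)
  exact hm (lemmaK hG (conf Av As At' h hs ht k1 l1 k2 l2 k3 l3 hv ns nt na' nb' ne ne' ng ng' d0
    d1 d2))

end Pool.Agent.LI4
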