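import Pool.Agent.LI4.DefsT

/-!
LI4: the role of `v` in the neighbourhoods of its neighbours, proofs.
-/

set_option autoImplicit false

namespace Pool.Agent.LI4

open Pool.Agent.LG6 Pool.Agent.LR5 Pool.Agent.LD6

variable {V : Type} {G : SimpleGraph V}

theorem com_s14 {v s t a b a' b' u : V} (Av : At G v) (h : T2 G v s t a b a' b')
    (hu : G.Adj v u) (hs : G.Adj s u) : u = t ∨ u = a ∨ u = b := by
  rcases t2_all Av h u hu with rfl | rfl | rfl | rfl | rfl | rfl
  · exact absurd rfl hs.ne
  · exact Or.inl rfl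
  · exact Or.inr (Or.inl rfl)
  · exact Or.inr (Or.inr rfl)
  · exact absurd hs h.nsa
  · exact absurd hs h.nsb

theorem com_a14 {v s t a b a' b' u : V} (Av : At G v) (h : T2 G v s t a b a' b')
    (hu : G.Adj v u) (ha : G.Adj a u) : u = s ∨ u = t ∨ u = a' := by
  rcases t2_all Av h u hu with rfl | rfl | rfl | rfl | rfl | rfl
  · exact Or.inl rfl
  · exact Or.inr (Or.inl rfl)
  · exact absurd rfl ha.ne
  · exact absurd ha h.nab
  · exact Or.inr (Or.inr rfl)
  · exact absurd ha h.nab'

theorem com_a'14 {v s t a b a' b' u : V} (Av : At G v) (h : T2 G v s t a b a' b')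
    (hu : G.Adj v u) (ha : G.Adj a' u) : u = a ∨ u = b' := by
  rcases t2_all Av h u hu with rfl | rfl | rfl | rfl | rfl | rfl
  · exact absurd ha.symm h.nsa
  · exact absurd ha.symm h.nta
  · exact Or.inl rfl
  · exact absurd ha.symm h.nba'
  · exact absurd rfl ha.ne
  · exact Or.inr rfl

theorem role_s_p14 {v s t a b a' b' q x y x' y' : V} (Av : At G v)
    (h : T2 G v s t a b a' b') (hs : T2 G s v q x y x' y') : ∃ e e', T2 G s v t a b e e' := by
  have hq := com_s14 Av h hs.st hs.vt
  have hx := com_s14 Av h hs.sa hs.va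
  have hy := com_s14 Av h hs.sb hs.vb
  have hxy : x ≠ y := hs.ne.2.2.2.2.1
  have hqx := hs.ta
  have hqy := hs.tb
  have e1 : q = t := by
    rcases hq with rfl | rfl | rfl
    · rfl
    · exfalso
      rcases hx with rfl | rfl | rfl
      · rcases hy with rfl | rfl | rfl
        · exact hxy rfl
        · exact hqy.ne rfl
        · exact h.nab hqy
      · exact hqx.ne rfl
      · exact h.nab hqx
    · exfalso
      rcases hx with rfl | rfl | rfl
      · rcases hy with rfl | rfl | rfl
        · exact hxy rfl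
        · exact h.nab hqy.symm
        · exact hqy.ne rfl
      · exact h.nab hqx.symm
      · exact hqx.ne rfl
  subst e1
  rcases hx with rfl | rfl | rfl
  · exact absurd rfl hqx.ne
  · rcases hy with rfl | rfl | rfl
    · exact absurd rfl hqy.ne
    · exact absurd rfl hxy
    · exact ⟨_, _, hs⟩
  · rcases hy with rfl | rfl | rfl
    · exact absurd rfl hqy.ne
    · exact ⟨_, _, hs.rev⟩
    · exact absurd rfl hxy

theorem role_s_x14 {v s t a b a' b' p q y x' y' : V} (Av : At G v)
    (h : T2 G v s t a b a' b') (hs : T2 G s p q v y x' y') : False := by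
  have hp := com_s14 Av h hs.sa.symm hs.vs
  have hq := com_s14 Av h hs.ta.symm hs.vt
  have hx := com_s14 Av h hs.aa' hs.va'
  have hpq : p ≠ q := hs.st.ne
  have hpx : p ≠ x' := hs.ne.1
  have hqx : q ≠ x' := hs.ne.2.2.1
  have n1 := hs.nsa
  have n2 := hs.nta
  rcases hx with rfl | rfl | rfl
  · rcases hp with rfl | rfl | rfl
    · exact hpx rfl
    · exact n1 h.ta.symm
    · exact n1 h.tb.symm
  · rcases hp with rfl | rfl | rfl
    · exact n1 h.ta
    · exact hpx rfl
    · rcases hq with rfl | rfl | rfl
      · exact n2 h.ta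
      · exact hqx rfl
      · exact hpq rfl
  · rcases hp with rfl | rfl | rfl
    · exact n1 h.tb
    · rcases hq with rfl | rfl | rfl
      · exact n2 h.tb
      · exact hpq rfl
      · exact hqx rfl
    · exact hpx rfl

theorem role_s_x'14 {v s t a b a' b' p q x y y' : V} (As : At G s)
    (h : T2 G v s t a b a' b') (hs : T2 G s p q x y v y') : False := by
  have ht := com_a'14 As hs h.st h.vt
  have ha := com_a'14 As hs h.sa h.va
  have hb := com_a'14 As hs h.sb h.vb
  have n1 := h.ta.ne
  have n2 := h.tb.ne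
  have n3 : a ≠ b := h.ne.2.2.2.2.1
  rcases ht with rfl | rfl
  · rcases ha with rfl | rfl
    · exact n1 rfl
    · rcases hb with rfl | rfl
      · exact n2 rfl
      · exact n3 rfl
  · rcases ha with rfl | rfl
    · rcases hb with rfl | rfl
      · exact n3 rfl
      · exact n2 rfl
    · exact n1 rfl

theorem role_s14 {v s t a b a' b' p q x y x' y' : V} (Av : At G v) (As : At G s)
    (h : T2 G v s t a b a' b') (hs : T2 G s p q x y x' y') : ∃ e e', T2 G s v t a b e e' := by
  rcases t2_all As hs v h.vs.symm with rfl | rfl | rfl | rfl | rfl | rfl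
  · exact role_s_p14 Av h hs
  · exact role_s_p14 Av h hs.swap
  · exact (role_s_x14 Av h hs).elim
  · exact (role_s_x14 Av h hs.rev).elim
  · exact (role_s_x'14 As h hs).elim
  · exact (role_s_x'14 As h hs.rev).elim

theorem role_a_p14 {v s t a b a' b' q x y x' y' : V} (Av : At G v)
    (h : T2 G v s t a b a' b') (ha : T2 G a v q x y x' y') : False := by
  have hq := com_a14 Av h ha.st ha.vt
  have hx := com_a14 Av h ha.sa ha.va
  have hy := com_a14 Av h ha.sb ha.vb
  have hxy : x ≠ y := ha.ne.2.2.2.2.1
  have hqx := ha.ta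
  have hqy := ha.tb
  rcases hq with rfl | rfl | rfl
  · rcases hx with rfl | rfl | rfl
    · exact hqx.ne rfl
    · rcases hy with rfl | rfl | rfl
      · exact hqy.ne rfl
      · exact hxy rfl
      · exact h.nsa hqy
    · exact h.nsa hqx
  · rcases hx with rfl | rfl | rfl
    · rcases hy with rfl | rfl | rfl
      · exact hxy rfl
      · exact hqy.ne rfl
      · exact h.nta hqy
    · exact hqx.ne rfl
    · exact h.nta hqx
  · rcases hx with rfl | rfl | rfl
    · exact h.nsa hqx.symm
    · exact h.nta hqx.symm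
    · exact hqx.ne rfl

theorem role_a_x14 {v s t a b a' b' p q y x' y' : V} (Av : At G v)
    (h : T2 G v s t a b a' b') (ha : T2 G a p q v y x' y') : ∃ z z', T2 G a s t v z a' z' := by
  have hp := com_a14 Av h ha.sa.symm ha.vs
  have hq := com_a14 Av h ha.ta.symm ha.vt
  have hx := com_a14 Av h ha.aa' ha.va'
  have hpq := ha.st
  have hpx : p ≠ x' := ha.ne.1
  have hqx : q ≠ x' := ha.ne.2.2.1
  rcases hp with rfl | rfl | rfl
  · rcases hq with rfl | rfl | rfl
    · exact absurd rfl hpq.ne
    · rcases hx with rfl | rfl | rfl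
      · exact absurd rfl hpx
      · exact absurd rfl hqx
      · exact ⟨_, _, ha⟩
    · exact absurd hpq h.nsa
  · rcases hq with rfl | rfl | rfl
    · rcases hx with rfl | rfl | rfl
      · exact absurd rfl hqx
      · exact absurd rfl hpx
      · exact ⟨_, _, ha.swap⟩
    · exact absurd rfl hpq.ne
    · exact absurd hpq h.nta
  · rcases hq with rfl | rfl | rfl
    · exact absurd hpq.symm h.nsa
    · exact absurd hpq.symm h.nta
    · exact absurd rfl hpq.ne

theorem role_a_x'14 {v s t a b a' b' p q x y y' : V} (Aa : At G a)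
    (h : T2 G v s t a b a' b') (ha : T2 G a p q x y v y') : False := by
  have hs := com_a'14 Aa ha h.sa.symm h.vs
  have ht := com_a'14 Aa ha h.ta.symm h.vt
  have ha' := com_a'14 Aa ha h.aa' h.va'
  have n1 := h.st.ne
  have n2 : s ≠ a' := h.ne.1
  have n3 : t ≠ a' := h.ne.2.2.1
  rcases hs with rfl | rfl
  · rcases ht with rfl | rfl
    · exact n1 rfl
    · rcases ha' with rfl | rfl
      · exact n2 rfl
      · exact n3 rfl
  · rcases ht with rfl | rfl
    · rcases ha' with rfl | rfl
      · exact n3 rfl
      · exact n2 rfl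
    · exact n1 rfl

theorem role_a14 {v s t a b a' b' p q x y x' y' : V} (Av : At G v) (Aa : At G a)
    (h : T2 G v s t a b a' b') (ha : T2 G a p q x y x' y') : ∃ z z', T2 G a s t v z a' z' := by
  rcases t2_all Aa ha v h.va.symm with rfl | rfl | rfl | rfl | rfl | rfl
  · exact (role_a_p14 Av h ha).elim
  · exact (role_a_p14 Av h ha.swap).elim
  · exact role_a_x14 Av h ha
  · exact role_a_x14 Av h ha.rev
  · exact (role_a_x'14 Aa h ha).elim
  · exact (role_a_x'14 Aa h ha.rev).elim

end Pool.Agent.LI4
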