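import Pool.Agent.LI4.RoleA15
import Pool.Agent.LI4.RoleS14

/-!
LI4: the role of `v` in the neighbourhoods of its neighbours.  Let `h : T2 G v s t a b a' b'`.

`role_s`: the common neighbours of `v` and `s` are `t, a, b` (`t2_all`, `h.nsa`, `h.nsb`), with exactly
the two edges `ta`, `tb` between them.  In `hs : T2 G s p q x y x' y'` the vertex `v` is one of
`p, q, x, y, x', y'` (`t2_all` at `s`).  If `v = x`: `p`, `q`, `x'` are different common neighbours of
`v` and `s`, hence they are `t, a, b` in some order, and `p ~ q`, `x'` not adjacent to `p`, `q`: but in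
`{t, a, b}` every vertex has a neighbour; contradiction.  `v = y`: the same (`hs.rev`).  If `v = x'`: `t`,
`a`, `b` are three different common neighbours, but the common neighbours of `x'` and `s` are only `x`
and `y'` (`x'` is not adjacent to `p`, `q`, `y`); same for `v = y'`.  So `v = p` (or `v = q`, use
`hs.swap`): the common neighbours of `p` and `s` are `q, x, y`, and `q ~ x, y`, `x` not adjacent to `y`: so
`q = t` and `{x, y} = {a, b}`; use `hs` or `hs.rev`.

`role_a`: the common neighbours of `v` and `a` are `s, t, a'` with the only edge `s t`.  In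
`ha : T2 G a p q x y x' y'` the cases `v = p`, `q` (common neighbours `q, x, y` with two edges) and
`v = x'`, `y'` (only two common neighbours) are impossible; so `v = x` or `v = y` (use `ha.rev`): the
common neighbours of `x` and `a` are `p, q, x'` with the only edge `p q`, so `{p, q} = {s, t}`, `x' = a'`;
use `ha` or `ha.swap`.
-/

set_option autoImplicit false

namespace Pool.Agent.LI4

open Pool.Agent.LG6 Pool.Agent.LR5 Pool.Agent.LD6

variable {V : Type} {G : SimpleGraph V}

theorem role_s {v s t a b a' b' p q x y x' y' : V} (Av : At G v) (As : At G s)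
    (h : T2 G v s t a b a' b') (hs : T2 G s p q x y x' y') : ∃ e e', T2 G s v t a b e e' :=
  role_s14 Av As h hs

theorem role_a {v s t a b a' b' p q x y x' y' : V} (Av : At G v) (Aa : At G a)
    (h : T2 G v s t a b a' b') (ha : T2 G a p q x y x' y') : ∃ z z', T2 G a s t v z a' z' :=
  role_aP Av Aa h ha

end Pool.Agent.LI4
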