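import Pool.Agent.LI4.DefsT

/-!
LI4: the role of `v` in the neighbourhood of `a`.  Let `h : T2 G v s t a b a' b'` and
`ha : T2 G a p q x y x' y'`.

The common neighbours of `v` and `a` are `s, t, a'` (`cn_a`) with the only edge `s t`; so `v` is not `p`, `q`
(`a_ne_p`: the common neighbours `q, x, y` have two edges) and not `x'`, `y'` (`a_ne_x'`: only two common
neighbours).  So `v = x` or `v = y`, and `{p, q} = {s, t}`, `x' = a'` (`a_x`).
-/

set_option autoImplicit false

namespace Pool.Agent.LI4

open Pool.Agent.LG6 Pool.Agent.LR5 Pool.Agent.LD6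

variable {V : Type} {G : SimpleGraph V}

/-- the common neighbours of `v` and `a` -/
theorem cn_a {v s t a b a' b' : V} (Av : At G v) (h : T2 G v s t a b a' b') :
    ∀ y, G.Adj v y → G.Adj a y → y = s ∨ y = t ∨ y = a' := by
  intro y hy ha
  rcases t2_all Av h y hy with e | e | e | e | e | e
  · exact Or.inl e
  · exact Or.inr (Or.inl e)
  · subst e; exact absurd rfl ha.ne
  · subst e; exact absurd ha h.nab
  · exact Or.inr (Or.inr e)
  · subst e; exact absurd ha h.nab'

/-- `v` is not `p` -/
theorem a_ne_p {v s t a b a' b' p q x y x' y' : V} (Av : At G v)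
    (h : T2 G v s t a b a' b') (ha : T2 G a p q x y x' y') (e : v = p) : False := by
  subst e
  have h1 := cn_a Av h q ha.st ha.vt
  have h2 := cn_a Av h x ha.sa ha.va
  have h3 := cn_a Av h y ha.sb ha.vb
  have n1 := ha.ta
  have n2 := ha.tb
  have n3 := ha.ne.2.2.2.2.1
  have m1 := h.nsa
  have m2 := h.nta
  have m1' : ¬ G.Adj a' s := fun e => m1 e.symm
  have m2' : ¬ G.Adj a' t := fun e => m2 e.symm
  rcases h1 with e1 | e1 | e1 <;> rcases h2 with e2 | e2 | e2 <;> rcases h3 with e3 | e3 | e3 <;>
    subst e1 e2 e3 <;>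
    first
    | exact n3 rfl
    | exact n1.ne rfl
    | exact n2.ne rfl
    | exact m1 n1
    | exact m1 n2
    | exact m2 n1
    | exact m2 n2
    | exact m1' n1
    | exact m1' n2

/-- `v` is not `x'` -/
theorem a_ne_x' {v s t a b a' b' p q x y x' y' : V} (Aa : At G a)
    (h : T2 G v s t a b a' b') (ha : T2 G a p q x y x' y') (e : v = x') : False := by
  subst e
  have key : ∀ z, G.Adj a z → G.Adj v z → z = x ∨ z = y' := by
    intro z h1 h2
    rcases t2_all Aa ha z h1 with e | e | e | e | e | e
    · subst e; exact absurd h2.symm ha.nsa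
    · subst e; exact absurd h2.symm ha.nta
    · exact Or.inl e
    · subst e; exact absurd h2.symm ha.nba'
    · subst e; exact absurd rfl h2.ne
    · exact Or.inr e
  have h1 := key s h.sa.symm h.vs
  have h2 := key t h.ta.symm h.vt
  have h3 := key a' h.aa' h.va'
  have n1 := h.st.ne
  have n2 := h.ne.1
  have n3 := h.ne.2.2.1
  rcases h1 with e1 | e1 <;> rcases h2 with e2 | e2 <;> rcases h3 with e3 | e3 <;>
    first | exact n1 (e1.trans e2.symm) | exact n2 (e1.trans e3.symm) | exact n3 (e2.trans e3.symm)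

/-- the case `v = x` -/
theorem a_x {v s t a b a' b' p q x y x' y' : V} (Av : At G v)
    (h : T2 G v s t a b a' b') (ha : T2 G a p q x y x' y') (e : v = x) :
    ∃ z z', T2 G a s t v z a' z' := by
  subst e
  have h1 := cn_a Av h p ha.sa.symm ha.vs
  have h2 := cn_a Av h q ha.ta.symm ha.vt
  have h3 := cn_a Av h x' ha.aa' ha.va'
  have n1 := ha.st
  have n2 := ha.ne.1
  have n3 := ha.ne.2.2.1
  have m1 := h.nsa
  have m2 := h.nta
  rcases h1 with e1 | e1 | e1 <;> rcases h2 with e2 | e2 | e2 <;> rcases h3 with e3 | e3 | e3 <;>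
    subst e1 e2 e3 <;>
    first
    | exact ⟨y, y', ha⟩
    | exact ⟨y, y', ha.swap⟩
    | exact absurd rfl n1.ne
    | exact absurd rfl n2
    | exact absurd rfl n3
    | exact absurd n1 m1
    | exact absurd n1 m2
    | exact absurd n1.symm m1
    | exact absurd n1.symm m2

theorem role_aP {v s t a b a' b' p q x y x' y' : V} (Av : At G v) (Aa : At G a)
    (h : T2 G v s t a b a' b') (ha : T2 G a p q x y x' y') : ∃ z z', T2 G a s t v z a' z' := by
  rcases t2_all Aa ha v h.va.symm with e | e | e | e | e | e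
  · exact (a_ne_p Av h ha e).elim
  · exact (a_ne_p Av h ha.swap e).elim
  · exact a_x Av h ha e
  · exact a_x Av h ha.rev e
  · exact (a_ne_x' Aa h ha e).elim
  · exact (a_ne_x' Aa h ha.rev e).elim

end Pool.Agent.LI4
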