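import Pool.Agent.LI4.DefsT
import Pool.Agent.LR5.A4

/-!
LI4: if `N(x)` is an induced 5-cycle `c₀ … c₄` with a hub `w` adjacent to `c₁, c₂, c₃`, and `G` is not
apex, then `w` is adjacent to neither `c₀` nor `c₄`, so `N(x)` is of type `T2`.

Proof.  `At.mk' hG hm hx` and `At.all`: the neighbours of `x` are `w, c₀, …, c₄`.  If `w ~ c₀` and
`w ~ c₄`: `w` is adjacent to all other neighbours of `x`, `app0` gives `NoMin G {w}`.  If `w ~ c₀` and
`w` is not adjacent to `c₄`: `a4 hG hm x w` with `Q := {c₀, c₁, c₂, c₃}`, `u := c₄`, `q := c₀`,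
`q' := c₃` (`c₄ ~ c₀, c₃`, `c₀` not adjacent to `c₃`).  The case `w ~ c₄`, `w` not adjacent to `c₀`
is symmetric: `Q := {c₁, c₂, c₃, c₄}`, `u := c₀`, `q := c₁`, `q' := c₄`.  Otherwise
`T2 G x w c₂ c₁ c₃ c₀ c₄`.
-/

set_option autoImplicit false

namespace Pool.Agent.LI4

open Pool.Agent.LG6 Pool.Agent.LR5 Pool.Agent.LD6

variable {V : Type} {G : SimpleGraph V}

theorem ty_hc [Fintype V] (hG : IsKConnected 6 G) (hm : ¬ HasCompleteMinor 6 G)
    (hA : ¬ ∃ p, NoMin G {p}) {x w c₀ c₁ c₂ c₃ c₄ : V} (hx : NC G x)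
    (h : HC G x w c₀ c₁ c₂ c₃ c₄) : T2 G x w c₂ c₁ c₃ c₀ c₄ := by
  classical
  have L := At.mk' hG hm hx
  have hall := L.all h.vw h.v0 h.v1 h.v2 h.v3 h.v4 ⟨h.wn0, h.w1.ne, h.w2.ne, h.w3.ne, h.wn4,
    h.a01.ne, h.m02, h.m30.symm, h.a40.ne.symm, h.a12.ne, h.m13, h.m41.symm, h.a23.ne, h.m24,
    h.a34.ne⟩
  by_cases h0 : G.Adj w c₀ <;> by_cases h4 : G.Adj w c₄
  · exfalso
    refine hA ⟨w, app0 hG hm x w h.vw ?_⟩
    intro u hu huw
    rcases hall u hu with h' | h' | h' | h' | h' | h'
    · exact absurd h' huw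
    · rw [h']; exact h0
    · rw [h']; exact h.w1
    · rw [h']; exact h.w2
    · rw [h']; exact h.w3
    · rw [h']; exact h4
  · exfalso
    refine hA ⟨w, a4 hG hm x w h.vw {c₀, c₁, c₂, c₃} ?_ ?_ c₄ h.v4 h.wn4.symm h4 ?_ c₀ c₃ ?_ ?_
      h.m30.symm h.a40 h.a34.symm (fun h' => h.n30 h'.symm)⟩
    · refine le_of_eq (Eq.symm ?_)
      rw [Finset.card_insert_of_notMem, Finset.card_insert_of_notMem,
        Finset.card_insert_of_notMem, Finset.card_singleton]
      · rw [Finset.mem_singleton]
        exact h.a23.ne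
      · rw [Finset.mem_insert, Finset.mem_singleton]
        rintro (h' | h')
        · exact h.a12.ne h'
        · exact h.m13 h'
      · rw [Finset.mem_insert, Finset.mem_insert, Finset.mem_singleton]
        rintro (h' | h' | h')
        · exact h.a01.ne h'
        · exact h.m02 h'
        · exact h.m30 h'.symm
    · intro q hq
      rw [Finset.mem_insert, Finset.mem_insert, Finset.mem_insert, Finset.mem_singleton] at hq
      rcases hq with h' | h' | h' | h'
      · rw [h']; exact ⟨h.v0, h0⟩
      · rw [h']; exact ⟨h.v1, h.w1⟩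
      · rw [h']; exact ⟨h.v2, h.w2⟩
      · rw [h']; exact ⟨h.v3, h.w3⟩
    · intro u hu
      rcases hall u hu with h' | h' | h' | h' | h' | h'
      · exact Or.inl h'
      · exact Or.inr (Or.inr (by simp [h']))
      · exact Or.inr (Or.inr (by simp [h']))
      · exact Or.inr (Or.inr (by simp [h']))
      · exact Or.inr (Or.inr (by simp [h']))
      · exact Or.inr (Or.inl h')
    · simp
    · simp
  · exfalso
    refine hA ⟨w, a4 hG hm x w h.vw {c₁, c₂, c₃, c₄} ?_ ?_ c₀ h.v0 h.wn0.symm h0 ?_ c₁ c₄ ?_ ?_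
      h.m41.symm h.a01 h.a40.symm (fun h' => h.n41 h'.symm)⟩
    · refine le_of_eq (Eq.symm ?_)
      rw [Finset.card_insert_of_notMem, Finset.card_insert_of_notMem,
        Finset.card_insert_of_notMem, Finset.card_singleton]
      · rw [Finset.mem_singleton]
        exact h.a34.ne
      · rw [Finset.mem_insert, Finset.mem_singleton]
        rintro (h' | h')
        · exact h.a23.ne h'
        · exact h.m24 h'
      · rw [Finset.mem_insert, Finset.mem_insert, Finset.mem_singleton]
        rintro (h' | h' | h')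
        · exact h.a12.ne h'
        · exact h.m13 h'
        · exact h.m41 h'.symm
    · intro q hq
      rw [Finset.mem_insert, Finset.mem_insert, Finset.mem_insert, Finset.mem_singleton] at hq
      rcases hq with h' | h' | h' | h'
      · rw [h']; exact ⟨h.v1, h.w1⟩
      · rw [h']; exact ⟨h.v2, h.w2⟩
      · rw [h']; exact ⟨h.v3, h.w3⟩
      · rw [h']; exact ⟨h.v4, h4⟩
    · intro u hu
      rcases hall u hu with h' | h' | h' | h' | h' | h'
      · exact Or.inl h'
      · exact Or.inr (Or.inl h')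
      · exact Or.inr (Or.inr (by simp [h']))
      · exact Or.inr (Or.inr (by simp [h']))
      · exact Or.inr (Or.inr (by simp [h']))
      · exact Or.inr (Or.inr (by simp [h']))
    · simp
    · simp
  · exact
      { vs := h.vw
        vt := h.v2
        va := h.v1
        vb := h.v3
        va' := h.v0
        vb' := h.v4
        st := h.w2
        sa := h.w1
        sb := h.w3
        ta := h.a12.symm
        tb := h.a23
        aa' := h.a01.symm
        bb' := h.a34
        ab' := h.a40.symm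
        nsa := h0
        nsb := h4
        nta := fun h' => h.n02 h'.symm
        ntb := h.n24
        nab := h.n13
        nab' := fun h' => h.n41 h'.symm
        nba' := h.n30
        ne := ⟨h.wn0, h.wn4, h.m02.symm, h.m24, h.m13, h.m41.symm, h.m30⟩ }

end Pool.Agent.LI4
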