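import Pool.Agent.LI4.TyQV
import Pool.Agent.LI4.TyHC

/-!
LI4: the type of the vertices that are no claw centres.
-/

set_option autoImplicit false

namespace Pool.Agent.LI4

open Pool.Agent.LG6 Pool.Agent.LR5 Pool.Agent.LD6

variable {V : Type} {G : SimpleGraph V}

theorem typ_of [Fintype V] (hG : IsKConnected 6 G) (hm : ¬ HasCompleteMinor 6 G)
    (hA : ¬ ∃ p, NoMin G {p}) {x : V} (hT : Tri1 G x) : Typ G x := by
  classical
  intro hx
  refine ⟨?_, hT⟩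
  by_cases hH : ∃ w c₀ c₁ c₂ c₃ c₄ : V, HC G x w c₀ c₁ c₂ c₃ c₄
  · obtain ⟨w, c₀, c₁, c₂, c₃, c₄, h⟩ := hH
    exact ⟨_, _, _, _, _, _, ty_hc hG hm hA hx h⟩
  · exfalso
    push Not at hH
    obtain ⟨A, B, q⟩ := local_qv2 (Gl.mk' hG hm) (At.mk' hG hm hx) hH
    exact ty_qv hG hm hT q

end Pool.Agent.LI4
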