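import Pool.Agent.LI4.DefsT
import Pool.Agent.LD6.End4
import Pool.Agent.LR5.Concl

/-!
LI4: `N(x)` is not the union of two disjoint triangles (proof of `ty_qv`).
-/

set_option autoImplicit false

namespace Pool.Agent.LI4

open Pool.Agent.LG6 Pool.Agent.LR5 Pool.Agent.LD6

variable {V : Type} {G : SimpleGraph V}

/-- two different vertices of a triangle of neighbours of `x` which are centres of no claw -/
theorem two_nc {x : V} (hT : Tri1 G x) {A : Finset V} (hA : A.card = 3)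
    (hn : ∀ a ∈ A, G.Adj x a) (hc : ∀ a ∈ A, ∀ b ∈ A, a ≠ b → G.Adj a b) :
    ∃ a ∈ A, ∃ b ∈ A, a ≠ b ∧ NC G a ∧ NC G b := by
  classical
  obtain ⟨a₁, a₂, a₃, h12, h13, h23, rfl⟩ := Finset.card_eq_three.1 hA
  have m1 : a₁ ∈ ({a₁, a₂, a₃} : Finset V) := by simp
  have m2 : a₂ ∈ ({a₁, a₂, a₃} : Finset V) := by simp
  have m3 : a₃ ∈ ({a₁, a₂, a₃} : Finset V) := by simp
  have e12 := hT a₁ a₂ (hn _ m1) (hn _ m2) (hc _ m1 _ m2 h12)
  have e13 := hT a₁ a₃ (hn _ m1) (hn _ m3) (hc _ m1 _ m3 h13)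
  have e23 := hT a₂ a₃ (hn _ m2) (hn _ m3) (hc _ m2 _ m3 h23)
  by_cases h1 : NC G a₁
  · rcases e23 with h | h
    · exact ⟨a₁, m1, a₂, m2, h12, h1, h⟩
    · exact ⟨a₁, m1, a₃, m3, h13, h1, h⟩
  · exact ⟨a₂, m2, a₃, m3, h23, e12.resolve_left h1, e13.resolve_left h1⟩

theorem ty_qv_S90 [Fintype V] (hG : IsKConnected 6 G) (hm : ¬ HasCompleteMinor 6 G) {x : V}
    (hT : Tri1 G x) {A B : Finset V} (q : QV G x A B) : False := by
  classical
  have hX := lemX hG hm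
  have hnA : ∀ a ∈ A, G.Adj x a := fun a ha => (q.nbr a).2 (Or.inl ha)
  have hnB : ∀ b ∈ B, G.Adj x b := fun b hb => (q.nbr b).2 (Or.inr hb)
  have hA1 : ∀ a ∈ A, NC G a → ∃ b ∈ B, G.Adj a b := by
    intro a ha hna
    by_contra hcon
    push Not at hcon
    exact case_two hX q ha (At.mk' hG hm hna) hcon
  have hB1 : ∀ b ∈ B, NC G b → ∃ a ∈ A, G.Adj b a := by
    intro b hb hnb
    by_contra hcon
    push Not at hcon
    exact case_two hX q.swap hb (At.mk' hG hm hnb) hcon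
  have hstrong : ∀ a ∈ A, ∀ b ∈ B, G.Adj a b → Strong G a b := by
    intro a ha b hb hab
    refine ⟨hab, Or.inr ⟨x, hnA a ha, hnB b hb, fun u hu hua hub => ?_⟩⟩
    rcases (q.nbr u).1 hu with h | h
    · exact Or.inl (q.cA a ha u h hua.symm)
    · exact Or.inr (q.cB b hb u h hub.symm)
  have hneAB : ∀ a ∈ A, ∀ b ∈ B, a ≠ b := fun a ha b hb h => q.disj a ha (h ▸ hb)
  have hfin : ∀ a ∈ A, ∀ b ∈ B, ∀ a' ∈ A, ∀ b' ∈ B, a ≠ a' → b ≠ b' → G.Adj a b →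
      G.Adj a' b' → False := by
    intro a ha b hb a' ha' b' hb' haa hbb h h'
    exact strong_false hG hm a b a' b' (hstrong a ha b hb h) (hstrong a' ha' b' hb' h') haa
      (hneAB a ha b' hb') (hneAB a' ha' b hb).symm hbb
  obtain ⟨a₁, ha₁, a₂, ha₂, ha12, n1, n2⟩ := two_nc hT q.hA hnA q.cA
  obtain ⟨b₁, hb₁, b₂, hb₂, hb12, k1, k2⟩ := two_nc hT q.hB hnB q.cB
  obtain ⟨u, hu, hau⟩ := hA1 a₁ ha₁ n1
  obtain ⟨w, hw, haw⟩ := hA1 a₂ ha₂ n2
  by_cases huw : u = w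
  · subst huw
    -- a vertex of `B` different from `u` with a neighbour in `A`
    have hb : ∃ b ∈ B, b ≠ u ∧ NC G b := by
      by_cases h : b₁ = u
      · exact ⟨b₂, hb₂, fun h' => hb12 (h.trans h'.symm), k2⟩
      · exact ⟨b₁, hb₁, h, k1⟩
    obtain ⟨b, hbB, hbu, hbn⟩ := hb
    obtain ⟨z, hz, hbz⟩ := hB1 b hbB hbn
    by_cases h : a₁ = z
    · refine hfin a₂ ha₂ u hu z hz b hbB (fun h' => ha12 (h.trans h'.symm)) hbu.symm haw hbz.symm
    · exact hfin a₁ ha₁ u hu z hz b hbB h hbu.symm hau hbz.symm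
  · exact hfin a₁ ha₁ u hu a₂ ha₂ w hw ha12 huw hau haw

end Pool.Agent.LI4
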