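import Pool.Agent.LI4.DefsT
import Pool.Agent.LD6.End4
import Pool.Agent.LR5.Concl
import Pool.Agent.LI4.TyQVS90

/-!
LI4: `N(x)` is not the union of two disjoint triangles `A`, `B`, if no two adjacent neighbours of `x`
are both centres of claws.

Proof.  In `A` at most one vertex is the centre of a claw (two of them would be adjacent neighbours of
`x`), the same in `B`; so there are different `a₁, a₂ ∈ A` and different `b₁, b₂ ∈ B` which are `NC`.
`At G a` for these (`At.mk' hG hm`).  By `case_two hX q ha (At G a)` every `NC` vertex `a ∈ A` has a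
neighbour in `B`; by `case_two hX q.swap` every `NC` vertex of `B` has a neighbour in `A`
(`hX := lemX hG hm`).  Hence there are two disjoint edges `a b`, `a' b'` between `A` and `B`
(`a, a' ∈ A`, `b, b' ∈ B`, `a ≠ a'`, `b ≠ b'`): let `a₁ ~ u`, `a₂ ~ w` with `u, w ∈ B`; if `u ≠ w` done;
if `u = w`, one of `b₁, b₂` is not `u`, say `b₁`, and it has a neighbour `z ∈ A`; one of `a₁, a₂` is not
`z`, and its edge to `u` together with `z b₁` does it.
Each of the two edges is `Strong` (second alternative with `v := x`): the other vertices of `A` are
adjacent to `a`, those of `B` to `b`.  `strong_false` gives the contradiction.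
-/

set_option autoImplicit false

namespace Pool.Agent.LI4

open Pool.Agent.LG6 Pool.Agent.LR5 Pool.Agent.LD6

variable {V : Type} {G : SimpleGraph V}

theorem ty_qv [Fintype V] (hG : IsKConnected 6 G) (hm : ¬ HasCompleteMinor 6 G) {x : V}
    (hT : Tri1 G x) {A B : Finset V} (q : QV G x A B) : False := by
  exact ty_qv_S90 hG hm hT q

end Pool.Agent.LI4
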